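import Pool.Agent.Lib.MP_8fffab_lc_RR.Defs2

/-!
Row A1. RECIPES. `card_rest`: the sets `(t0 l).1`, `l ≠ i, j`, are disjoint with `h` elements; `rest` is the complement of their union
(`Finset.card_biUnion`, `card_compl`), and there are `k - 2` such `l`: `k*h+1 - (k-2)*h = 2h+1` (`k ≥ 2` as `i ≠ j`). `card_fib`: `t ↦ ((t i).1, (t j).1)`
is a bijection of `fib t0 i j` onto the pairs `(A, B)`, `A ∈ powersetCard h (rest)`, `B ∈ powersetCard h (rest \ A)`;
`C(2h+1,h) * C(h+1,h) = C(2h+1,h) * (h+1)`.
-/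

namespace Pool.Agent.Lib.MP_8fffab_lc_RR

open Finset

variable {α : Type} [Fintype α] [DecidableEq α] {k h s : ℕ}

theorem card_rest (hα : Fintype.card α = k * h + 1) {t0 : Fin k → HSet α h} (ht0 : t0 ∈ packs α h k)
    {i j : Fin k} (hij : i ≠ j) : (rest t0 i j).card = 2 * h + 1 := by
  classical
  have h1 : rest t0 i j = (((univ.erase i).erase j).biUnion (fun l => (t0 l).1))ᶜ := by
    ext u
    simp only [rest, mem_filter, mem_univ, true_and, mem_compl, mem_biUnion, mem_erase, not_exists,
      not_and, and_true]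
    constructor
    · intro h l hl; exact h l hl.2 hl.1
    · intro h l hl hl'; exact h l ⟨hl', hl⟩
  have hp : ∀ a b, a ≠ b → Disjoint (t0 a).1 (t0 b).1 := by
    simpa [packs] using ht0
  have h2 : (((univ.erase i).erase j).biUnion (fun l => (t0 l).1)).card = (k - 1 - 1) * h := by
    rw [card_biUnion (fun a _ b _ hab => hp a b hab)]
    rw [sum_congr rfl (fun l _ => (t0 l).2), sum_const, smul_eq_mul,
      card_erase_of_mem (mem_erase.2 ⟨hij.symm, mem_univ _⟩), card_erase_of_mem (mem_univ _), card_univ, Fintype.card_fin]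
  have hk : 2 ≤ k := by
    have h3 : ({i, j} : Finset (Fin k)).card ≤ Fintype.card (Fin k) := card_le_univ _
    rw [card_pair hij, Fintype.card_fin] at h3
    exact h3
  rw [h1, card_compl, h2, hα]
  obtain ⟨m, rfl⟩ := Nat.exists_eq_add_of_le hk
  have h4 : 2 + m - 1 - 1 = m := by omega
  rw [h4]
  have h5 : (2 + m) * h + 1 = m * h + (2 * h + 1) := by ring
  rw [h5, Nat.add_sub_cancel_left]

theorem card_fib (hα : Fintype.card α = k * h + 1) {t0 : Fin k → HSet α h} (ht0 : t0 ∈ packs α h k)
    {i j : Fin k} (hij : i ≠ j) : (fib t0 i j).card = (h + 1) * (2 * h + 1).choose h := by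
  classical
  have hp : ∀ a b, a ≠ b → Disjoint (t0 a).1 (t0 b).1 := by
    simpa [packs] using ht0
  have hc := card_rest hα ht0 hij
  have hsig : ((powersetCard h (rest t0 i j)).sigma
      (fun A => powersetCard h (rest t0 i j \ A))).card = (h + 1) * (2 * h + 1).choose h := by
    rw [card_sigma]
    have h1 : ∀ A ∈ powersetCard h (rest t0 i j),
        (powersetCard h (rest t0 i j \ A)).card = h + 1 := by
      intro A hA
      rw [mem_powersetCard] at hA
      rw [card_powersetCard, card_sdiff_of_subset hA.1, hc, hA.2]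
      have h2 : 2 * h + 1 - h = h + 1 := by omega
      rw [h2, Nat.choose_succ_self_right]
    rw [sum_congr rfl h1, sum_const, smul_eq_mul, card_powersetCard, hc, mul_comm]
  rw [← hsig]
  have hmem : ∀ (t : Fin k → HSet α h), t ∈ fib t0 i j ↔
      (∀ a b, a ≠ b → Disjoint (t a).1 (t b).1) ∧ ∀ l, l ≠ i → l ≠ j → t l = t0 l := by
    intro t
    simp [fib, packs]
  have hrest : ∀ u, u ∈ rest t0 i j ↔ ∀ l, l ≠ i → l ≠ j → u ∉ (t0 l).1 := by
    intro u
    simp [rest]
  refine card_bij (fun t _ => ⟨(t i).1, (t j).1⟩) ?_ ?_ ?_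
  · intro t ht
    rw [hmem] at ht
    obtain ⟨h1, h2⟩ := ht
    rw [mem_sigma, mem_powersetCard, mem_powersetCard]
    refine ⟨⟨fun u hu => ?_, (t i).2⟩, fun u hu => ?_, (t j).2⟩
    · rw [hrest]
      intro l hl hl' hu'
      rw [← h2 l hl hl'] at hu'
      exact (disjoint_left.1 (h1 i l hl.symm) hu) hu'
    · rw [mem_sdiff, hrest]
      refine ⟨fun l hl hl' hu' => ?_, fun hu' => ?_⟩
      · rw [← h2 l hl hl'] at hu'
        exact (disjoint_left.1 (h1 j l hl'.symm) hu) hu'
      · exact (disjoint_left.1 (h1 i j hij) hu') hu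
  · intro t ht t' ht' he
    rw [hmem] at ht ht'
    simp only [Sigma.mk.injEq, heq_eq_eq] at he
    funext l
    by_cases hi : l = i
    · rw [hi]; exact Subtype.ext he.1
    · by_cases hj : l = j
      · rw [hj]; exact Subtype.ext he.2
      · rw [ht.2 l hi hj, ht'.2 l hi hj]
  · rintro ⟨A, B⟩ hAB
    rw [mem_sigma, mem_powersetCard, mem_powersetCard] at hAB
    obtain ⟨⟨hA, hA'⟩, hB, hB'⟩ := hAB
    dsimp only at hA hA' hB hB'
    let t : Fin k → HSet α h := fun l => if l = i then ⟨A, hA'⟩ else if l = j then ⟨B, hB'⟩ else t0 l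
    have ti : t i = ⟨A, hA'⟩ := by simp [t]
    have tj : t j = ⟨B, hB'⟩ := by simp [t, hij.symm]
    have tl : ∀ l, l ≠ i → l ≠ j → t l = t0 l := fun l hl hl' => by simp [t, hl, hl']
    refine ⟨t, ?_, ?_⟩
    · rw [hmem]
      refine ⟨?_, tl⟩
      have dA : ∀ l, l ≠ i → l ≠ j → Disjoint A (t0 l).1 := fun l hl hl' =>
        disjoint_left.2 fun u hu => (hrest u).1 (hA hu) l hl hl'
      have dB : ∀ l, l ≠ i → l ≠ j → Disjoint B (t0 l).1 := fun l hl hl' =>
        disjoint_left.2 fun u hu => (hrest u).1 (mem_sdiff.1 (hB hu)).1 l hl hl'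
      have dAB : Disjoint A B := disjoint_left.2 fun u hu hu' => (mem_sdiff.1 (hB hu')).2 hu
      intro a b hab
      by_cases ai : a = i
      · by_cases bj : b = j
        · rw [ai, bj, ti, tj]; exact dAB
        · have bi : b ≠ i := fun h => hab (ai.trans h.symm)
          rw [ai, ti, tl b bi bj]; exact dA b bi bj
      · by_cases aj : a = j
        · by_cases bi : b = i
          · rw [aj, bi, ti, tj]; exact dAB.symm
          · have bj : b ≠ j := fun h => hab (aj.trans h.symm)
            rw [aj, tj, tl b bi bj]; exact dB b bi bj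
        · by_cases bi : b = i
          · rw [bi, ti, tl a ai aj]; exact (dA a ai aj).symm
          · by_cases bj : b = j
            · rw [bj, tj, tl a ai aj]; exact (dB a ai aj).symm
            · rw [tl a ai aj, tl b bi bj]; exact hp a b hab
    · simp only [ti, tj]

end Pool.Agent.Lib.MP_8fffab_lc_RR
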