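import Pool.Agent.Lib.MP_8fffab_lc_RR.Base

/-!
Row M3. RECIPE (`silent`): put `n := tau R r (val t)`. `sil t i j` agrees with `val t` on the variables asked up to time `n`: for
`((l,c),b) ∈ trace R (val t) n` we have `b = val t (l,c)` (`trace_val`); if `l ≠ i, j` fine; if `l = i` (or `j`) and `b = true` then
`i ∈ opened R (val t) n = stopOpen R r t`, excluded; so `b = false = sil t i j (i,c)`. By `agree` (with `a := val t`,
`a' := sil t i j`) nodes and traces are the same for all `m ≤ n`, so the condition of `tau` is the same for all `m ≤ n` (`opened` depends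
on the trace only), it holds at `n` for `val t` (`Nat.sInf_mem`, nonempty by `exists_leaf`) and at no `m < n` (`Nat.notMem_of_lt_sInf`), hence
`tau R r (sil t i j) = n`. The two last statements: `((i, t i), false) ∈ trace R (val t) n` is impossible by `trace_val`, since
`val t (i, t i) = true`. About 60 lines.
-/

namespace Pool.Agent.Lib.MP_8fffab_lc_RR

open Finset

variable {α : Type} [Fintype α] [DecidableEq α] {k h s : ℕ}

theorem silent (R : Ref α h k s) (r : ℕ) (t : Fin k → HSet α h) (i j : Fin k)
    (hi : i ∉ stopOpen R r t) (hj : j ∉ stopOpen R r t) :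
    nodeAt R (sil t i j) (tau R r (sil t i j)) = stopNode R r t ∧
      ((i, t i), false) ∉ trace R (sil t i j) (tau R r (sil t i j)) ∧
      ((j, t j), false) ∉ trace R (sil t i j) (tau R r (sil t i j)) := by
  classical
  set n := tau R r (val t) with hn
  have hop : ∀ (l : Fin k) (c : HSet α h), ((l, c), true) ∈ trace R (val t) n →
      l ∈ stopOpen R r t := by
    intro l c hl
    unfold stopOpen opened
    rw [Finset.mem_filter]
    exact ⟨Finset.mem_univ _, c, hl⟩
  have hag : ∀ x b, (x, b) ∈ trace R (val t) n → sil t i j x = b := by
    rintro ⟨l, c⟩ b hx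
    have hb := trace_val hx
    by_cases hli : l = i
    · subst hli
      have hs : sil t l j (l, c) = false := by simp [sil]
      rw [hs]
      cases b with
      | false => rfl
      | true => exact absurd (hop _ _ hx) hi
    · by_cases hlj : l = j
      · subst hlj
        have hs : sil t i l (l, c) = false := by simp [sil]
        rw [hs]
        cases b with
        | false => rfl
        | true => exact absurd (hop _ _ hx) hj
      · rw [← hb]
        simp [sil, val, hli, hlj]
  have hag' := agree hag
  have hop' : ∀ m ≤ n, opened R (sil t i j) m = opened R (val t) m := by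
    intro m hm
    unfold opened
    rw [(hag' m hm).2]
  have hne : {m | R.rule (nodeAt R (val t) m) = none ∨ r ≤ (opened R (val t) m).card}.Nonempty := by
    obtain ⟨m, hm⟩ := exists_leaf R (val t)
    exact ⟨m, Or.inl hm⟩
  have hmem : R.rule (nodeAt R (val t) n) = none ∨ r ≤ (opened R (val t) n).card := Nat.sInf_mem hne
  have htau : tau R r (sil t i j) = n := by
    unfold tau
    apply le_antisymm
    · apply Nat.sInf_le
      show R.rule (nodeAt R (sil t i j) n) = none ∨ r ≤ (opened R (sil t i j) n).card
      rw [(hag' n le_rfl).1, hop' n le_rfl]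
      exact hmem
    · by_contra hcon
      push Not at hcon
      set q := sInf {m | R.rule (nodeAt R (sil t i j) m) = none ∨
        r ≤ (opened R (sil t i j) m).card} with hq
      have hne' : {m | R.rule (nodeAt R (sil t i j) m) = none ∨
          r ≤ (opened R (sil t i j) m).card}.Nonempty := by
        obtain ⟨m, hm⟩ := exists_leaf R (sil t i j)
        exact ⟨m, Or.inl hm⟩
      have hmem' : R.rule (nodeAt R (sil t i j) q) = none ∨
          r ≤ (opened R (sil t i j) q).card := Nat.sInf_mem hne'
      rw [(hag' q hcon.le).1, hop' q hcon.le] at hmem'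
      exact Nat.notMem_of_lt_sInf hcon hmem'
  rw [htau]
  have htr : trace R (sil t i j) n = trace R (val t) n := (hag' n le_rfl).2
  have hf : ∀ l : Fin k, ((l, t l), false) ∉ trace R (val t) n := by
    intro l hl
    have := trace_val hl
    simp [val] at this
  refine ⟨(hag' n le_rfl).1, ?_, ?_⟩
  · rw [htr]
    exact hf i
  · rw [htr]
    exact hf j

end Pool.Agent.Lib.MP_8fffab_lc_RR
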