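import Pool.Agent.Lib.MP_8fffab_lc_RR.M2
import Pool.Agent.Lib.MP_8fffab_lc_RR.M3
import Pool.Agent.Lib.MP_8fffab_lc_RR.A1

/-!
Row A2. RECIPE: if the left hand side is empty take any `W`, e.g. the given `W` with the bound below fails only if there is an element, so: let `t1` be in
`badPacks ∩ fib` (if there is none, take `W := ∅`, `T := fun _ => True`; then `δ h ≤ card (rest)`: not needed if stated as below). Put `v := nodeAt R (sil t0 i j) (tau ..)`, `V := rest t0 i j`,
`W := reach R v ∩ V`, `M i := {A | ((i,A),false) ∉ trace ..}`, `T a := ∃ A' ∈ M i, a ∩ W ⊆ A'.1`. For `t ∈ badPacks ∩ fib` : `sil t i j = sil t0 i j`, so by `silent` `v = stopNode R r t`,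
`t i ∈ M i`, `t j ∈ M j`. Map `t ↦ ((t i).1, u)`, `u` the only element of `V \ (t i).1 \ (t j).1` (`card_rest`). It is injective on `fib` ( `(t j).1 = V \ (t i).1 \ {u}`), and lands in `pairs V W T h`:
`T ((t i).1 ∩ W)` with `A' = t i`; if `T (insert u (t i).1 ∩ W)` with `A' ∈ M i` then the tuple `t' := update t i A'` has by `star` (applied to `t0`, `t'`) an element `z ∈ reach R v` in no `(t' l).1`; `z ∈ V` (the sets `l ≠ i, j` are those of `t0`), so
`z ∈ W`, `z ∉ (t j).1`, so `z ∈ insert u (t i).1 ∩ W ⊆ A'`, contradiction. Also `(t i).1 \ reach ⊆ V \ W` gives `d ≤ card (V \ W)`. About 120 lines.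
-/

namespace Pool.Agent.Lib.MP_8fffab_lc_RR

open Finset

variable {α : Type} [Fintype α] [DecidableEq α] {k h s : ℕ}

private lemma a2_mem_fib {t0 t : Fin k → HSet α h} {i j : Fin k} :
    t ∈ fib t0 i j ↔ t ∈ packs α h k ∧ ∀ l, l ≠ i → l ≠ j → t l = t0 l := by
  classical
  simp only [fib, Finset.mem_filter]

private lemma a2_mem_rest {t0 : Fin k → HSet α h} {i j : Fin k} {u : α} :
    u ∈ rest t0 i j ↔ ∀ l, l ≠ i → l ≠ j → u ∉ (t0 l).1 := by
  classical
  simp only [rest, Finset.mem_filter, Finset.mem_univ, true_and]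

private lemma a2_packs {t : Fin k → HSet α h} (ht : t ∈ packs α h k) {l m : Fin k} (hlm : l ≠ m) :
    Disjoint (t l).1 (t m).1 := by
  classical
  simp only [packs, Finset.mem_filter, Finset.mem_univ, true_and] at ht
  exact ht l m hlm

omit [Fintype α] in
private lemma a2_sil {t0 t : Fin k → HSet α h} {i j : Fin k}
    (ht : ∀ l, l ≠ i → l ≠ j → t l = t0 l) : sil t i j = sil t0 i j := by
  funext x
  unfold sil
  apply decide_eq_decide.2
  constructor
  · rintro ⟨h1, h2, h3⟩
    exact ⟨h1, h2, by rw [← ht _ h1 h2]; exact h3⟩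
  · rintro ⟨h1, h2, h3⟩
    exact ⟨h1, h2, by rw [ht _ h1 h2]; exact h3⟩

private lemma a2_sub {t0 t : Fin k → HSet α h} {i j : Fin k} (ht : t ∈ fib t0 i j) {m : Fin k}
    (hm : m = i ∨ m = j) : (t m).1 ⊆ rest t0 i j := by
  rw [a2_mem_fib] at ht
  intro u hu
  rw [a2_mem_rest]
  intro l hl1 hl2 hul
  have hlm : l ≠ m := by
    rcases hm with rfl | rfl
    · exact hl1
    · exact hl2
  have hd := a2_packs ht.1 hlm
  rw [ht.2 l hl1 hl2] at hd
  exact Finset.disjoint_left.1 hd hul hu

theorem bad_fib (R : Ref α h k s) (r : ℕ) (hα : Fintype.card α = k * h + 1) {t0 : Fin k → HSet α h}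
    (ht0 : t0 ∈ packs α h k) {i j : Fin k} (hij : i ≠ j) (d : ℝ) :
    (badPacks R r d i j ∩ fib t0 i j) = ∅ ∨
    ∃ (W : Finset α) (T : Finset α → Prop), (∀ a a', a ⊆ a' → T a' → T a) ∧ W ⊆ rest t0 i j ∧
      d ≤ ((rest t0 i j \ W).card : ℝ) ∧
      (badPacks R r d i j ∩ fib t0 i j).card ≤ (pairs (rest t0 i j) W T h).card := by
  classical
  rcases (badPacks R r d i j ∩ fib t0 i j).eq_empty_or_nonempty with hS | ⟨t1, ht1⟩
  · exact Or.inl hS
  right
  set S := badPacks R r d i j ∩ fib t0 i j with hSdef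
  set v := nodeAt R (sil t0 i j) (tau R r (sil t0 i j)) with hv
  set V := rest t0 i j with hV
  have hbad : ∀ t ∈ S, t ∈ fib t0 i j ∧ i ∉ stopOpen R r t ∧ j ∉ stopOpen R r t ∧
      d ≤ (((t i).1 \ reach R (stopNode R r t)).card : ℝ) := by
    intro t ht
    obtain ⟨h1, h2⟩ := Finset.mem_inter.1 ht
    refine ⟨h2, ?_⟩
    simp only [badPacks, Finset.mem_filter] at h1
    exact h1.2
  have hsilent : ∀ t ∈ S, stopNode R r t = v ∧
      ((i, t i), false) ∉ trace R (sil t0 i j) (tau R r (sil t0 i j)) ∧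
      ((j, t j), false) ∉ trace R (sil t0 i j) (tau R r (sil t0 i j)) := by
    intro t ht
    obtain ⟨h1, h2, h3, -⟩ := hbad t ht
    have h4 := silent R r t i j h2 h3
    rw [a2_sil (a2_mem_fib.1 h1).2] at h4
    exact ⟨h4.1.symm, h4.2⟩
  refine ⟨reach R v ∩ V, fun a => ∃ A : HSet α h,
    ((i, A), false) ∉ trace R (sil t0 i j) (tau R r (sil t0 i j)) ∧ a ∩ (reach R v ∩ V) ⊆ A.1,
    ?_, Finset.inter_subset_right, ?_, ?_⟩
  · rintro a a' haa' ⟨A, h1, h2⟩
    exact ⟨A, h1, (Finset.inter_subset_inter_right haa').trans h2⟩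
  · obtain ⟨h1, h2, h3, h4⟩ := hbad t1 ht1
    refine h4.trans ?_
    have hsub : (t1 i).1 \ reach R (stopNode R r t1) ⊆ V \ (reach R v ∩ V) := by
      intro x hx
      obtain ⟨hx1, hx2⟩ := Finset.mem_sdiff.1 hx
      rw [(hsilent t1 ht1).1] at hx2
      refine Finset.mem_sdiff.2 ⟨a2_sub h1 (Or.inl rfl) hx1, fun h5 => hx2 (Finset.mem_inter.1 h5).1⟩
    exact_mod_cast Finset.card_le_card hsub
  · have hne : Nonempty α := Fintype.card_pos_iff.1 (by omega)
    have key : ∀ t ∈ S, ∃ u, V \ ((t i).1 ∪ (t j).1) = {u} := by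
      intro t ht
      obtain ⟨h1, -⟩ := hbad t ht
      rw [← Finset.card_eq_one, Finset.card_sdiff_of_subset
        (Finset.union_subset (a2_sub h1 (Or.inl rfl)) (a2_sub h1 (Or.inr rfl))),
        Finset.card_union_of_disjoint (a2_packs (a2_mem_fib.1 h1).1 hij), (t i).2, (t j).2,
        card_rest hα ht0 hij]
      omega
    choose! u hu using key
    have huV : ∀ t ∈ S, ∀ x, x ∈ V → (x ∈ (t i).1 ∨ x ∈ (t j).1 ∨ x = u t) := by
      intro t ht x hx
      by_contra hcon
      push Not at hcon
      have : x ∈ V \ ((t i).1 ∪ (t j).1) := by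
        rw [Finset.mem_sdiff, Finset.mem_union, not_or]
        exact ⟨hx, hcon.1, hcon.2.1⟩
      rw [hu t ht, Finset.mem_singleton] at this
      exact hcon.2.2 this
    have huu : ∀ t ∈ S, u t ∈ V ∧ u t ∉ (t i).1 ∧ u t ∉ (t j).1 := by
      intro t ht
      have : u t ∈ V \ ((t i).1 ∪ (t j).1) := by
        rw [hu t ht]; exact Finset.mem_singleton_self _
      rw [Finset.mem_sdiff, Finset.mem_union, not_or] at this
      exact this
    refine Finset.card_le_card_of_injOn (fun t => ((t i).1, u t)) ?_ ?_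
    · intro t ht
      have ht : t ∈ S := ht
      obtain ⟨h1, h2, h3, h4⟩ := hbad t ht
      obtain ⟨s1, s2, s3⟩ := hsilent t ht
      obtain ⟨u1, u2, u3⟩ := huu t ht
      have hgoal : ((t i).1, u t) ∈ pairs V (reach R v ∩ V) (fun a => ∃ A : HSet α h,
          ((i, A), false) ∉ trace R (sil t0 i j) (tau R r (sil t0 i j)) ∧
            a ∩ (reach R v ∩ V) ⊆ A.1) h := by
        simp only [pairs, Finset.mem_filter, Finset.mem_product, Finset.mem_powersetCard]
        refine ⟨⟨⟨a2_sub h1 (Or.inl rfl), (t i).2⟩, u1⟩, u2, ?_, ?_⟩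
        · exact ⟨t i, s2, Finset.inter_subset_left.trans Finset.inter_subset_left⟩
        · rintro ⟨A, hA1, hA2⟩
          have htj : Function.update t i A j = t j := Function.update_of_ne hij.symm _ _
          obtain ⟨z, hz1, hz2⟩ := star R r t0 (Function.update t i A) i j
            (fun l hl1 hl2 => by
              rw [Function.update_of_ne hl1]
              exact (a2_mem_fib.1 h1).2 l hl1 hl2)
            (by rw [Function.update_self]; exact hA1)
            (by rw [htj]; exact s3)
          have hzV : z ∈ V := by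
            rw [hV, a2_mem_rest]
            intro l hl1 hl2
            have := hz2 l
            rw [Function.update_of_ne hl1, (a2_mem_fib.1 h1).2 l hl1 hl2] at this
            exact this
          have hzi : z ∉ A.1 := by
            have := hz2 i
            rwa [Function.update_self] at this
          have hzj : z ∉ (t j).1 := by
            have := hz2 j
            rwa [htj] at this
          have hzW : z ∈ reach R v ∩ V := Finset.mem_inter.2 ⟨hz1, hzV⟩
          apply hzi
          apply hA2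
          rw [Finset.mem_inter, Finset.mem_inter]
          refine ⟨⟨?_, hzW⟩, hzW⟩
          rcases huV t ht z hzV with h5 | h5 | h5
          · exact Finset.mem_insert_of_mem h5
          · exact absurd h5 hzj
          · rw [h5]; exact Finset.mem_insert_self _ _
      exact hgoal
    · intro t ht t' ht' heq
      have ht : t ∈ S := ht
      have ht' : t' ∈ S := ht'
      obtain ⟨e1, e2⟩ := Prod.mk.inj heq
      obtain ⟨h1, -⟩ := hbad t ht
      obtain ⟨h1', -⟩ := hbad t' ht'
      have hj : ∀ x, x ∈ (t j).1 ↔ x ∈ V ∧ x ∉ (t i).1 ∧ x ≠ u t := by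
        intro x
        constructor
        · intro hx
          refine ⟨a2_sub h1 (Or.inr rfl) hx, ?_, ?_⟩
          · exact fun h5 => Finset.disjoint_left.1 (a2_packs (a2_mem_fib.1 h1).1 hij) h5 hx
          · rintro rfl
            exact (huu t ht).2.2 hx
        · rintro ⟨hx1, hx2, hx3⟩
          rcases huV t ht x hx1 with h5 | h5 | h5
          · exact absurd h5 hx2
          · exact h5
          · exact absurd h5 hx3
      have hj' : ∀ x, x ∈ (t' j).1 ↔ x ∈ V ∧ x ∉ (t' i).1 ∧ x ≠ u t' := by
        intro x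
        constructor
        · intro hx
          refine ⟨a2_sub h1' (Or.inr rfl) hx, ?_, ?_⟩
          · exact fun h5 => Finset.disjoint_left.1 (a2_packs (a2_mem_fib.1 h1').1 hij) h5 hx
          · rintro rfl
            exact (huu t' ht').2.2 hx
        · rintro ⟨hx1, hx2, hx3⟩
          rcases huV t' ht' x hx1 with h5 | h5 | h5
          · exact absurd h5 hx2
          · exact h5
          · exact absurd h5 hx3
      funext l
      by_cases hl1 : l = i
      · subst hl1
        exact Subtype.ext e1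
      by_cases hl2 : l = j
      · subst hl2
        apply Subtype.ext
        ext x
        rw [hj, hj', e1, e2]
      · rw [(a2_mem_fib.1 h1).2 l hl1 hl2, (a2_mem_fib.1 h1').2 l hl1 hl2]

end Pool.Agent.Lib.MP_8fffab_lc_RR
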