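import Pool.Agent.Lib.MP_8fffab_lc_RR.T4
import Pool.Agent.Lib.MP_8fffab_lc_RR.A2

/-!
Row A3 (Claim A). RECIPE: take `h0` of `static x δ`. By `bad_fib`, `static` and `card_rest`, for each `t0 ∈ packs`:
`(badPacks R r (δ*h) i j ∩ fib t0 i j).card ≤ x * (h+1) * C(2h+1,h) = x * (fib t0 i j).card` (`card_fib`). The fibres of `φ t := fun l => if l = i ∨ l = j then none else some (t l)`
on `packs` are the `fib t0 i j`: `Finset.card_eq_sum_card_fiberwise` (or `card_eq_sum_card_image`) over the image of `packs`, once for `badPacks` and once for `packs`. About 50 lines.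
-/

namespace Pool.Agent.Lib.MP_8fffab_lc_RR

open Finset

theorem claimA (x δ : ℝ) (hx : 0 < x) (hδ : 0 < δ) :
    ∃ h0 : ℕ, ∀ (α : Type) [Fintype α] [DecidableEq α] (k h s r : ℕ), h0 ≤ h →
      Fintype.card α = k * h + 1 → ∀ (R : Ref α h k s) (i j : Fin k), i ≠ j →
      ((badPacks R r (δ * h) i j).card : ℝ) ≤ x * ((packs α h k).card : ℝ) := by
  classical
  obtain ⟨h0, hst⟩ := static x δ hx hδ
  refine ⟨h0, fun α _ _ k h s r hh hα R i j hij => ?_⟩
  -- one fibre
  have hfib : ∀ t0 ∈ packs α h k, ((badPacks R r (δ * h) i j ∩ fib t0 i j).card : ℝ) ≤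
      x * ((fib t0 i j).card : ℝ) := by
    intro t0 ht0
    rw [card_fib hα ht0 hij]
    push_cast
    rcases bad_fib R r hα ht0 hij (δ * h) with h1 | ⟨W, T, hT, hW, hd, hle⟩
    · rw [h1, card_empty]
      push_cast
      positivity
    · have h2 := hst α h hh (rest t0 i j) W T hT hW (card_rest hα ht0 hij) hd
      have h3 : ((badPacks R r (δ * h) i j ∩ fib t0 i j).card : ℝ) ≤
          ((pairs (rest t0 i j) W T h).card : ℝ) := by exact_mod_cast hle
      exact h3.trans h2
  set φ : (Fin k → HSet α h) → (Fin k → Option (HSet α h)) :=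
    fun t l => if l = i ∨ l = j then none else some (t l) with hφ
  have hφiff : ∀ t t0, φ t = φ t0 ↔ ∀ l, l ≠ i → l ≠ j → t l = t0 l := by
    intro t t0
    constructor
    · intro h1 l hl1 hl2
      have h2 := congrFun h1 l
      simp only [hφ, hl1, hl2, or_self, if_false] at h2
      exact Option.some_injective _ h2
    · intro h1
      funext l
      simp only [hφ]
      by_cases hl1 : l = i
      · simp [hl1]
      · by_cases hl2 : l = j
        · simp [hl2]
        · simp [hl1, hl2, h1 l hl1 hl2]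
  have hsub : badPacks R r (δ * h) i j ⊆ packs α h k := by
    unfold badPacks
    exact filter_subset _ _
  have e1 : (badPacks R r (δ * h) i j).card = ∑ y ∈ (packs α h k).image φ,
      ((badPacks R r (δ * h) i j).filter (fun t => φ t = y)).card :=
    card_eq_sum_card_fiberwise fun t ht => mem_image_of_mem φ (hsub ht)
  have e2 : (packs α h k).card = ∑ y ∈ (packs α h k).image φ,
      ((packs α h k).filter (fun t => φ t = y)).card :=
    card_eq_sum_card_fiberwise fun t ht => mem_image_of_mem φ ht
  rw [e1, e2]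
  push_cast
  rw [mul_sum]
  refine sum_le_sum fun y hy => ?_
  obtain ⟨t0, ht0, rfl⟩ := mem_image.1 hy
  have e3 : (packs α h k).filter (fun t => φ t = φ t0) = fib t0 i j := by
    unfold fib
    ext t
    simp only [mem_filter, hφiff]
  have e4 : (badPacks R r (δ * h) i j).filter (fun t => φ t = φ t0) =
      badPacks R r (δ * h) i j ∩ fib t0 i j := by
    rw [← e3]
    ext t
    simp only [mem_filter, mem_inter]
    exact ⟨fun h1 => ⟨h1.1, hsub h1.1, h1.2⟩, fun h1 => ⟨h1.1, h1.2.2⟩⟩
  rw [e3, e4]
  exact hfib t0 ht0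

end Pool.Agent.Lib.MP_8fffab_lc_RR
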