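import Pool.Agent.Lib.MP_8fffab_lc_RR.Base

/-!
Row M4. Facts about the stopping time.
-/

namespace Pool.Agent.Lib.MP_8fffab_lc_RR

open Finset

variable {α : Type} [Fintype α] [DecidableEq α] {k h s : ℕ}

theorem stop_alt (R : Ref α h k s) (r : ℕ) (t : Fin k → HSet α h) :
    R.rule (stopNode R r t) = none ∨ r ≤ (stopOpen R r t).card := by
  have hne : {n | R.rule (nodeAt R (val t) n) = none ∨
      r ≤ (opened R (val t) n).card}.Nonempty := by
    obtain ⟨n, hn⟩ := exists_leaf R (val t)
    exact ⟨n, Or.inl hn⟩
  exact Nat.sInf_mem hne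

theorem stopOpen_card_le (R : Ref α h k s) (r : ℕ) (t : Fin k → HSet α h) :
    (stopOpen R r t).card ≤ r := by
  unfold stopOpen
  rcases hτ : tau R r (val t) with _ | m
  · have h0 : opened R (val t) 0 = ∅ := by
      unfold opened
      simp [trace]
    rw [h0]
    simp
  · have hm : ¬ (R.rule (nodeAt R (val t) m) = none ∨ r ≤ (opened R (val t) m).card) := by
      have h1 : m < tau R r (val t) := by omega
      exact Nat.notMem_of_lt_sInf h1
    rw [not_or] at hm
    obtain ⟨h1, h2⟩ := hm
    rcases hr : R.rule (nodeAt R (val t) m) with _ | ⟨x, p, q⟩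
    · exact absurd hr h1
    · have hsub : opened R (val t) (m + 1) ⊆ insert x.1 (opened R (val t) m) := by
        intro i hi
        unfold opened at hi ⊢
        simp only [Finset.mem_filter, Finset.mem_univ, true_and, trace, hr, List.mem_cons,
          Prod.mk.injEq] at hi
        obtain ⟨c, hc⟩ := hi
        rw [mem_insert]
        rcases hc with ⟨hx, _⟩ | hc
        · left
          rw [← hx]
        · right
          simp only [Finset.mem_filter, Finset.mem_univ, true_and]
          exact ⟨c, hc⟩
      have h3 := card_le_card hsub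
      have h4 := card_insert_le x.1 (opened R (val t) m)
      omega

theorem mem_stopOpen (R : Ref α h k s) (r : ℕ) (t : Fin k → HSet α h) {i : Fin k}
    (hi : i ∈ stopOpen R r t) : ((i, t i), true) ∈ trace R (val t) (tau R r (val t)) := by
  unfold stopOpen opened at hi
  simp only [Finset.mem_filter, Finset.mem_univ, true_and] at hi
  obtain ⟨c, hc⟩ := hi
  have h1 := trace_val hc
  have h2 : t i = c := by
    unfold val at h1
    simpa using h1
  rw [← h2] at hc
  exact hc

private theorem m4_path_leaf {X : Type} {Ax : Set (Set (X × Bool))} {R : Refutation X Ax s}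
    {v w : Fin s} {L : List (X × Bool)} (hv : R.rule v = none) (hp : Path R v w L) : w = v := by
  induction hp with
  | nil => rfl
  | no hp hr ih =>
    rw [ih, hv] at hr
    exact absurd hr (by simp)
  | yes hp hr ih =>
    rw [ih, hv] at hr
    exact absurd hr (by simp)

theorem leaf_reach (R : Ref α h k s) (r : ℕ) (hα : Fintype.card α = k * h + 1) {t : Fin k → HSet α h}
    (ht : t ∈ packs α h k) (hleaf : R.rule (stopNode R r t) = none) :
    (reach R (stopNode R r t)).card ≤ 1 := by
  classical
  have hdis : ∀ i j, i ≠ j → Disjoint (t i).1 (t j).1 := by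
    unfold packs at ht
    exact (Finset.mem_filter.mp ht).2
  have hsub : reach R (stopNode R r t) ⊆
      (Finset.univ : Finset α) \ (Finset.univ.biUnion (fun i => (t i).1)) := by
    intro u hu
    unfold reach at hu
    simp only [Finset.mem_filter, Finset.mem_univ, true_and] at hu
    obtain ⟨w, L, hp, hw, hcov⟩ := hu
    have hwv := m4_path_leaf hleaf hp
    rw [hwv] at hcov
    rw [Finset.mem_sdiff]
    refine ⟨Finset.mem_univ _, ?_⟩
    intro hmem
    obtain ⟨i, -, hi⟩ := Finset.mem_biUnion.mp hmem
    have h1 : (((i, t i), true) : (Fin k × HSet α h) × Bool) ∈ R.clause (stopNode R r t) := by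
      apply hcov
      exact ⟨hi, rfl⟩
    have h2 := run_false (R := R) (a := val t) (n := tau R r (val t)) h1
    unfold val at h2
    simp at h2
  have hcard : (Finset.univ.biUnion (fun i => (t i).1)).card = k * h := by
    rw [Finset.card_biUnion (fun i _ j _ hij => hdis i j hij)]
    simp [fun i => (t i).2]
  have h3 := Finset.card_le_card hsub
  rw [Finset.card_sdiff_of_subset (Finset.subset_univ _), hcard, Finset.card_univ, hα] at h3
  omega

end Pool.Agent.Lib.MP_8fffab_lc_RR
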