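import Pool.Agent.Lib.MP_8fffab_lc_RR.M1
import Pool.Agent.Lib.MP_8fffab_lc_RR.M4

/-!
Row B1. RECIPE: `t` in `notGood`, `v := stopNode R r t`, `S := (stopOpen R r t)ᶜ`, `σ := S.card ≥ r` (`stopOpen_card_le`, `k = 2r`). For `l ∉ S` the set `(t l).1` is disjoint from `reach R v`
(`mem_stopOpen`, `mixing`). All elements of `reach R v` but at most one are in some `(t l).1` (the complement of the union of the `k` disjoint sets has `1` element), so
`(reach R v).card ≤ 1 + ∑_{l∈S} ((t l).1 ∩ reach).card`... what is needed: `∑_{l∈S} ((t l).1 \ reach).card ≥ σ h - (reach R v).card` (simply: the sets `(t l).1 ∩ reach` are disjoint subsets of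
`reach`), `> σ h - (1-e)(r h+1) ≥ σ h - (1-e)(σ h+1) ≥ e σ h - 1 ≥ (e/2) σ h` as `e σ h ≥ e r h ≥ 2`. So with `S' := {i ∈ S : (e/4)h ≤ ((t i).1 \ reach).card}`: `∑ ≤ S'.card * h + σ (e/4) h`, hence
`S'.card ≥ (e/4) σ ≥ (e/4) r`. The pairs `(i,j)`, `i ∈ S'`, `j ∈ S \ {i}` are in the filter: at least `(e/4) r (r-1)`. About 110 lines. (`mixing` and disjointness for `l ∉ S` turn out not to be needed.)
-/

namespace Pool.Agent.Lib.MP_8fffab_lc_RR

open Finset

variable {α : Type} [Fintype α] [DecidableEq α] {k h s : ℕ}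

theorem many_pairs (r : ℕ) (R : Ref α h (2 * r) s) (hα : Fintype.card α = 2 * r * h + 1)
    {e : ℝ} (he : 0 < e) (he1 : e ≤ 1) (hr : 1 ≤ r) (hh : 2 ≤ e * (r * h)) {t : Fin (2 * r) → HSet α h}
    (ht : t ∈ notGood R r e) :
    e / 4 * (r * (r - 1)) ≤
      (((univ : Finset (Fin (2 * r) × Fin (2 * r))).filter
        (fun p => p.1 ≠ p.2 ∧ t ∈ badPacks R r (e / 4 * h) p.1 p.2)).card : ℝ) := by
  classical
  have ht' : t ∈ packs α h (2 * r) ∧
      ((reach R (stopNode R r t)).card : ℝ) < (1 - e) * (r * h + 1) := by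
    unfold notGood at ht
    simpa using ht
  obtain ⟨htp, hreach⟩ := ht'
  have hdis : ∀ i j, i ≠ j → Disjoint (t i).1 (t j).1 := by
    unfold packs at htp
    simpa using htp
  set Q : Finset α := reach R (stopNode R r t) with hQ
  set S : Finset (Fin (2 * r)) := (stopOpen R r t)ᶜ with hS
  have hσ : r ≤ S.card := by
    have h1 := stopOpen_card_le R r t
    have h2 : S.card + (stopOpen R r t).card = 2 * r := by
      rw [hS, Finset.card_compl_add_card, Fintype.card_fin]
    omega
  have hσ' : (r : ℝ) ≤ S.card := by exact_mod_cast hσ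
  have hr' : (1 : ℝ) ≤ r := by exact_mod_cast hr
  have hh0 : (0 : ℝ) < h := by
    rcases Nat.eq_zero_or_pos h with h0 | h0
    · rw [h0] at hh
      norm_num at hh
    · exact_mod_cast h0
  -- the parts in the reach are disjoint
  have hin : ∑ i ∈ S, ((t i).1 ∩ Q).card ≤ Q.card := by
    rw [← Finset.card_biUnion]
    · refine Finset.card_le_card ?_
      intro u hu
      rw [mem_biUnion] at hu
      obtain ⟨i, -, hi⟩ := hu
      exact (mem_inter.1 hi).2
    · intro i _ j _ hij
      exact (hdis i j hij).mono inter_subset_left inter_subset_left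
  have hsplit : ∀ i, (((t i).1 \ Q).card : ℝ) = h - (((t i).1 ∩ Q).card : ℝ) := by
    intro i
    have h1 := Finset.card_sdiff_add_card_inter (t i).1 Q
    rw [(t i).2] at h1
    have h2 : (((t i).1 \ Q).card : ℝ) + (((t i).1 ∩ Q).card : ℝ) = h := by exact_mod_cast h1
    linarith
  have hin' : ∑ i ∈ S, (((t i).1 ∩ Q).card : ℝ) ≤ Q.card := by exact_mod_cast hin
  have hsum : ∑ i ∈ S, (((t i).1 \ Q).card : ℝ) = S.card * h - ∑ i ∈ S, (((t i).1 ∩ Q).card : ℝ) := by
    simp only [hsplit]
    rw [Finset.sum_sub_distrib, Finset.sum_const, nsmul_eq_mul]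
  have hlow : e / 2 * (S.card * h) ≤ ∑ i ∈ S, (((t i).1 \ Q).card : ℝ) := by
    rw [hsum]
    have h1 : (r : ℝ) * h ≤ S.card * h := mul_le_mul_of_nonneg_right hσ' hh0.le
    have h2 : (1 - e) * (r * h + 1) ≤ (1 - e) * (S.card * h + 1) :=
      mul_le_mul_of_nonneg_left (by linarith) (by linarith)
    have h3 : e * (r * h) ≤ e * (S.card * h) := mul_le_mul_of_nonneg_left h1 he.le
    nlinarith
  -- the positions with many new elements
  set S' : Finset (Fin (2 * r)) := S.filter (fun i => e / 4 * h ≤ (((t i).1 \ Q).card : ℝ)) with hS'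
  have hup : ∑ i ∈ S, (((t i).1 \ Q).card : ℝ) ≤ S'.card * h + S.card * (e / 4 * h) := by
    rw [← Finset.sum_filter_add_sum_filter_not S
      (fun i => e / 4 * h ≤ (((t i).1 \ Q).card : ℝ))]
    refine add_le_add ?_ ?_
    · rw [← hS', ← nsmul_eq_mul]
      refine Finset.sum_le_card_nsmul _ _ _ fun i _ => ?_
      rw [hsplit]
      have : (0 : ℝ) ≤ (((t i).1 ∩ Q).card : ℝ) := Nat.cast_nonneg _
      linarith
    · have h1 : ∑ i ∈ S.filter (fun i => ¬ e / 4 * h ≤ (((t i).1 \ Q).card : ℝ)),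
          (((t i).1 \ Q).card : ℝ) ≤
          ((S.filter (fun i => ¬ e / 4 * h ≤ (((t i).1 \ Q).card : ℝ))).card : ℝ) * (e / 4 * h) := by
        rw [← nsmul_eq_mul]
        refine Finset.sum_le_card_nsmul _ _ _ fun i hi => ?_
        exact (not_le.1 (mem_filter.1 hi).2).le
      refine h1.trans (mul_le_mul_of_nonneg_right ?_ (by positivity))
      exact_mod_cast Finset.card_filter_le _ _
  have hS'card : e / 4 * S.card ≤ S'.card := by
    have h1 : e / 4 * S.card * h ≤ S'.card * h := by nlinarith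
    exact le_of_mul_le_mul_right h1 hh0
  -- the pairs
  have hcard : S'.card * (S.card - 1) ≤
      ((univ : Finset (Fin (2 * r) × Fin (2 * r))).filter
        (fun p => p.1 ≠ p.2 ∧ t ∈ badPacks R r (e / 4 * h) p.1 p.2)).card := by
    have h1 : (S'.sigma fun i => S.erase i).card = S'.card * (S.card - 1) := by
      rw [Finset.card_sigma]
      refine (Finset.sum_congr rfl fun i hi => ?_).trans (by rw [Finset.sum_const, smul_eq_mul])
      exact Finset.card_erase_of_mem (mem_filter.1 hi).1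
    rw [← h1]
    refine Finset.card_le_card_of_injOn (fun x => (x.1, x.2)) ?_ ?_
    · rintro ⟨i, j⟩ hx
      rw [Finset.mem_coe, Finset.mem_sigma] at hx
      obtain ⟨hi, hj⟩ := hx
      simp only at hi hj
      have hiS := (mem_filter.1 hi).1
      have hjS := mem_of_mem_erase hj
      simp only [Finset.coe_filter, Finset.mem_univ, true_and, Set.mem_setOf_eq]
      refine ⟨fun h => ?_, ?_⟩
      · exact (Finset.ne_of_mem_erase hj) h.symm
      · unfold badPacks
        rw [mem_filter]
        exact ⟨htp, Finset.mem_compl.1 hiS, Finset.mem_compl.1 hjS, (mem_filter.1 hi).2⟩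
    · rintro ⟨i, j⟩ _ ⟨i', j'⟩ _ hij
      simp only [Prod.mk.injEq] at hij
      obtain ⟨rfl, rfl⟩ := hij
      rfl
  have hcard' : (S'.card : ℝ) * (S.card - 1) ≤
      (((univ : Finset (Fin (2 * r) × Fin (2 * r))).filter
        (fun p => p.1 ≠ p.2 ∧ t ∈ badPacks R r (e / 4 * h) p.1 p.2)).card : ℝ) := by
    have h1 : ((S.card - 1 : ℕ) : ℝ) = (S.card : ℝ) - 1 := by
      rw [Nat.cast_sub (by omega)]
      norm_num
    rw [← h1]
    exact_mod_cast hcard
  refine le_trans ?_ hcard'
  have h1 : e / 4 * (r * (r - 1)) ≤ e / 4 * (S.card * (S.card - 1)) := by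
    refine mul_le_mul_of_nonneg_left ?_ (by positivity)
    exact mul_le_mul hσ' (by linarith) (by linarith) (by positivity)
  refine h1.trans ?_
  rw [← mul_assoc]
  exact mul_le_mul_of_nonneg_right hS'card (by linarith)

end Pool.Agent.Lib.MP_8fffab_lc_RR
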