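import Pool.Agent.Lib.MP_8fffab_lc_RR.A3
import Pool.Agent.Lib.MP_8fffab_lc_RR.B1

/-!
Row B2 (Claim B). RECIPE: `x := e/48`, `δ := e/4`, `h0 := max (h0 of claimA) ⌈2/e⌉`. Sum `many_pairs` over `t ∈ notGood` and exchange: `(notGood).card * (e/4) r (r-1) ≤ ∑_{p, p.1 ≠ p.2} (badPacks .. p.1 p.2).card
≤ 2r(2r-1) x (packs).card` (number of ordered pairs of different elements of `Fin (2r)` is `2r(2r-1)`: `Finset.offDiag_card`, or bound by it). With `r ≥ 2`: `2r(2r-1) ≤ 6 r (r-1)`, hence `(notGood).card ≤ (24/e) x (packs).card = (1/2) (packs).card`. 60 lines.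
-/

namespace Pool.Agent.Lib.MP_8fffab_lc_RR

open Finset

theorem claimB (e : ℝ) (he : 0 < e) (he1 : e ≤ 1) :
    ∃ h0 : ℕ, ∀ (α : Type) [Fintype α] [DecidableEq α] (h s r : ℕ), h0 ≤ h → 2 ≤ r →
      Fintype.card α = 2 * r * h + 1 → ∀ R : Ref α h (2 * r) s,
      2 * ((notGood R r e).card : ℝ) ≤ ((packs α h (2 * r)).card : ℝ) := by
  classical
  obtain ⟨h0, hA⟩ := claimA (e / 48) (e / 4) (by positivity) (by positivity)
  refine ⟨max h0 ⌈2 / e⌉₊, fun α _ _ h s r hh hr hα R => ?_⟩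
  have hh0 : h0 ≤ h := (le_max_left _ _).trans hh
  have hh1 : 2 / e ≤ (h : ℝ) := (Nat.le_ceil _).trans (by exact_mod_cast (le_max_right _ _).trans hh)
  have hr1 : (2 : ℝ) ≤ r := by exact_mod_cast hr
  have hhe : 2 ≤ e * h := by
    rw [div_le_iff₀ he] at hh1
    linarith
  have hhr : 2 ≤ e * (r * h) := by
    have h1 : e * h * 1 ≤ e * h * r := mul_le_mul_of_nonneg_left (by linarith) (by linarith)
    linarith
  set P := (univ : Finset (Fin (2 * r) × Fin (2 * r))).filter (fun p => p.1 ≠ p.2) with hP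
  have hcardP : (P.card : ℝ) = 2 * r * (2 * r - 1) := by
    have h1 : P = (univ : Finset (Fin (2 * r))).offDiag := by
      ext p
      simp [hP, mem_offDiag]
    rw [h1, offDiag_card, card_univ, Fintype.card_fin]
    have h2 : 2 * r ≤ 2 * r * (2 * r) := Nat.le_mul_of_pos_right _ (by omega)
    push_cast [h2]
    ring
  -- double counting
  have h1 : ∑ t ∈ notGood R r e, (e / 4 * (r * (r - 1)) : ℝ) ≤
      ∑ p ∈ P, ((badPacks R r (e / 4 * h) p.1 p.2).card : ℝ) := by
    calc ∑ t ∈ notGood R r e, (e / 4 * (r * (r - 1)) : ℝ)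
        ≤ ∑ t ∈ notGood R r e, (((univ : Finset (Fin (2 * r) × Fin (2 * r))).filter
            (fun p => p.1 ≠ p.2 ∧ t ∈ badPacks R r (e / 4 * h) p.1 p.2)).card : ℝ) :=
          sum_le_sum fun t ht => many_pairs r R hα he he1 (by omega) hhr ht
      _ = ∑ t ∈ notGood R r e, ∑ p ∈ P,
            (if t ∈ badPacks R r (e / 4 * h) p.1 p.2 then (1 : ℝ) else 0) := by
          refine sum_congr rfl fun t _ => ?_
          rw [sum_boole, hP, filter_filter]
      _ = ∑ p ∈ P, ∑ t ∈ notGood R r e,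
            (if t ∈ badPacks R r (e / 4 * h) p.1 p.2 then (1 : ℝ) else 0) := sum_comm
      _ ≤ ∑ p ∈ P, ((badPacks R r (e / 4 * h) p.1 p.2).card : ℝ) := by
          refine sum_le_sum fun p _ => ?_
          rw [sum_boole]
          norm_cast
          exact card_le_card fun t ht => (mem_filter.1 ht).2
  have h2 : ∑ p ∈ P, ((badPacks R r (e / 4 * h) p.1 p.2).card : ℝ) ≤
      ∑ p ∈ P, e / 48 * ((packs α h (2 * r)).card : ℝ) := by
    refine sum_le_sum fun p hp => ?_
    exact hA α (2 * r) h s r hh0 hα R p.1 p.2 (mem_filter.1 hp).2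
  rw [sum_const, nsmul_eq_mul] at h1 h2
  rw [hcardP] at h2
  have hpk : (0 : ℝ) ≤ ((packs α h (2 * r)).card : ℝ) := Nat.cast_nonneg _
  have hrr : 0 < (r : ℝ) * (r - 1) := mul_pos (by linarith) (by linarith)
  have h3 : 2 * (r : ℝ) * (2 * r - 1) ≤ 6 * (r * (r - 1)) := by nlinarith
  have h4 : 2 * (r : ℝ) * (2 * r - 1) * (e / 48 * ((packs α h (2 * r)).card : ℝ)) ≤
      6 * (r * (r - 1)) * (e / 48 * ((packs α h (2 * r)).card : ℝ)) :=
    mul_le_mul_of_nonneg_right h3 (by positivity)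
  have h5 : (e / 8 * (r * (r - 1))) * (2 * ((notGood R r e).card : ℝ)) ≤
      (e / 8 * (r * (r - 1))) * ((packs α h (2 * r)).card : ℝ) := by
    linarith
  exact le_of_mul_le_mul_left h5 (by positivity)

end Pool.Agent.Lib.MP_8fffab_lc_RR
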