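import Pool.Agent.Lib.MP_8fffab_lc_RR.Defs2

/-!
Basic facts about paths and runs.
-/

namespace Pool.Agent.Lib.MP_8fffab_lc_RR

open Finset

section general

variable {X : Type} {Ax : Set (Set (X × Bool))} {s : ℕ} {R : Refutation X Ax s}

/-- Every literal of the clause of a node has been falsified on every path to the node. -/
theorem path_lit {v : Fin s} {L : List (X × Bool)} (hp : Path R R.root v L) :
    ∀ l ∈ R.clause v, (l.1, !l.2) ∈ L := by
  induction hp with
  | nil => intro l hl; rw [R.root_empty] at hl; exact absurd hl (Set.notMem_empty _)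
  | @no v L x p q hp hr ih =>
    intro l hl
    obtain ⟨h1, -, -, -⟩ := R.res_ok _ _ _ _ hr
    rcases h1 hl with h | h
    · rw [h]; simp
    · exact List.mem_cons_of_mem _ (ih l h)
  | @yes v L x p q hp hr ih =>
    intro l hl
    obtain ⟨-, h2, -, -⟩ := R.res_ok _ _ _ _ hr
    rcases h2 hl with h | h
    · rw [h]; simp
    · exact List.mem_cons_of_mem _ (ih l h)

theorem path_trans {u v w : Fin s} {L L' : List (X × Bool)} (h1 : Path R u v L)
    (h2 : Path R v w L') : Path R u w (L' ++ L) := by
  induction h2 with
  | nil => simpa using h1
  | no hp hr ih => exact Path.no ih hr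
  | yes hp hr ih => exact Path.yes ih hr

theorem path_trace (R : Refutation X Ax s) (a : X → Bool) (n : ℕ) :
    Path R R.root (nodeAt R a n) (trace R a n) := by
  induction n with
  | zero => exact Path.nil
  | succ n ih =>
    rcases hr : R.rule (nodeAt R a n) with _ | ⟨x, p, q⟩
    · simp only [nodeAt, next, trace, hr]; exact ih
    · simp only [nodeAt, next, trace, hr]
      cases hx : a x
      · simpa using Path.no ih hr
      · simpa using Path.yes ih hr

theorem trace_val {a : X → Bool} {n : ℕ} {x : X} {b : Bool} (h : (x, b) ∈ trace R a n) :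
    a x = b := by
  induction n with
  | zero => simp [trace] at h
  | succ n ih =>
    rcases hr : R.rule (nodeAt R a n) with _ | ⟨y, p, q⟩
    · simp only [trace, hr] at h; exact ih h
    · simp only [trace, hr, List.mem_cons, Prod.mk.injEq] at h
      rcases h with ⟨rfl, rfl⟩ | h
      · rfl
      · exact ih h

/-- All clauses on the run of `a` are false under `a`. -/
theorem run_false {a : X → Bool} {n : ℕ} {l : X × Bool} (hl : l ∈ R.clause (nodeAt R a n)) :
    a l.1 = !l.2 :=
  trace_val (path_lit (path_trace R a n) l hl)

theorem exists_leaf (R : Refutation X Ax s) (a : X → Bool) : ∃ n, R.rule (nodeAt R a n) = none := by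
  by_contra hcon
  push_neg at hcon
  have h : ∀ n, R.rank (nodeAt R a n) + n ≤ R.rank R.root := by
    intro n
    induction n with
    | zero => simp [nodeAt]
    | succ n ih =>
      rcases hr : R.rule (nodeAt R a n) with _ | ⟨x, p, q⟩
      · exact absurd hr (hcon n)
      · obtain ⟨-, -, h3, h4⟩ := R.res_ok _ _ _ _ hr
        have : R.rank (nodeAt R a (n + 1)) < R.rank (nodeAt R a n) := by
          simp only [nodeAt, next, hr]
          cases a x
          · simpa using h3
          · simpa using h4
        omega
  have := h (R.rank R.root + 1)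
  omega

/-- After a leaf nothing changes. -/
theorem nodeAt_leaf {a : X → Bool} {m n : ℕ} (hmn : m ≤ n) (hm : R.rule (nodeAt R a m) = none) :
    nodeAt R a n = nodeAt R a m ∧ trace R a n = trace R a m := by
  induction n, hmn using Nat.le_induction with
  | base => exact ⟨rfl, rfl⟩
  | succ n hn ih =>
    have hr : R.rule (nodeAt R a n) = none := by rw [ih.1]; exact hm
    constructor
    · simp only [nodeAt, next, hr]; exact ih.1
    · simp only [trace, hr]; exact ih.2

/-- Two assignments which agree on the variables asked have the same run. -/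
theorem agree {a a' : X → Bool} {n : ℕ} (h : ∀ x b, (x, b) ∈ trace R a n → a' x = b) :
    ∀ m ≤ n, nodeAt R a' m = nodeAt R a m ∧ trace R a' m = trace R a m := by
  have hsub : ∀ m ≤ n, trace R a m ⊆ trace R a n := by
    intro m hm
    induction n, hm using Nat.le_induction with
    | base => exact List.Subset.refl _
    | succ n hn ih =>
      have hsub1 : trace R a n ⊆ trace R a (n + 1) := by
        rcases hr : R.rule (nodeAt R a n) with _ | ⟨x, p, q⟩
        · simp only [trace, hr]; exact List.Subset.refl _
        · simp only [trace, hr]; exact List.subset_cons_self _ _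
      exact List.Subset.trans (ih (fun x b hx => h x b (hsub1 hx))) hsub1
  intro m hm
  induction m with
  | zero => exact ⟨rfl, rfl⟩
  | succ m ih =>
    obtain ⟨h1, h2⟩ := ih (by omega)
    rcases hr : R.rule (nodeAt R a m) with _ | ⟨x, p, q⟩
    · have hr' : R.rule (nodeAt R a' m) = none := by rw [h1]; exact hr
      simp only [nodeAt, next, trace, hr, hr']
      exact ⟨h1, h2⟩
    · have hr' : R.rule (nodeAt R a' m) = some (x, p, q) := by rw [h1]; exact hr
      have hx : a' x = a x := by
        apply h x (a x)
        apply hsub (m + 1) hm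
        simp only [trace, hr]
        exact List.mem_cons_self
      simp only [nodeAt, next, trace, hr, hr', hx, h2, and_self]

theorem trace_mono {a : X → Bool} {m n : ℕ} (hmn : m ≤ n) : trace R a m ⊆ trace R a n := by
  induction n, hmn using Nat.le_induction with
  | base => exact List.Subset.refl _
  | succ n hn ih =>
    refine List.Subset.trans ih ?_
    rcases hr : R.rule (nodeAt R a n) with _ | ⟨x, p, q⟩
    · simp only [trace, hr]; exact List.Subset.refl _
    · simp only [trace, hr]; exact List.subset_cons_self _ _

theorem path_run (R : Refutation X Ax s) (a : X → Bool) {m n : ℕ} (hmn : m ≤ n) :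
    ∃ L, Path R (nodeAt R a m) (nodeAt R a n) L := by
  induction n, hmn using Nat.le_induction with
  | base => exact ⟨[], Path.nil⟩
  | succ n hn ih =>
    obtain ⟨L, hL⟩ := ih
    rcases hr : R.rule (nodeAt R a n) with _ | ⟨x, p, q⟩
    · simp only [nodeAt, next, hr]; exact ⟨L, hL⟩
    · simp only [nodeAt, next, hr]
      cases hx : a x
      · exact ⟨_, by simpa using Path.no hL hr⟩
      · exact ⟨_, by simpa using Path.yes hL hr⟩

end general

end Pool.Agent.Lib.MP_8fffab_lc_RR
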