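import Pool.Agent.Lib.MP_8fffab_lc_RR.Defs2

/-!
Row C1. RECIPE: for `Z : Finset α` let `N Z := number of t ∈ packs α h k with (R0.biUnion fun i => (t i).1) = Z`. For a permutation `σ` of `α` the map `t ↦ (fun l => (t l).map σ)`
is a bijection of `packs`, so `N (Z.map σ) = N Z`; two sets of the same size are related by some `σ` (`Equiv.extendSubtype` of `Finset.equivOfCardEq`). So `N Z = c` for all `Z` with
`R0.card * h` elements; for `t ∈ packs` the union has `R0.card * h` elements. Hence `(packs).card = C(card α, R0.card*h) * c` and the filter of the statement has `C(Y.card, R0.card*h) * c` elements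
(`Finset.card_eq_sum_card_fiberwise` over `powersetCard (R0.card*h) univ`, resp. `powersetCard .. Y`). If there is no `Z` (binomial 0) everything is `0`. About 100 lines.
-/

namespace Pool.Agent.Lib.MP_8fffab_lc_RR

open Finset

variable {α : Type} [Fintype α] [DecidableEq α] {k h s : ℕ}

/-- The union over the positions of `R0`. -/
def unionC1 (R0 : Finset (Fin k)) (t : Fin k → HSet α h) : Finset α := R0.biUnion fun i => (t i).1

/-- The action of a permutation. -/
def permC1 (σ : Equiv.Perm α) (t : Fin k → HSet α h) : Fin k → HSet α h :=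
  fun l => ⟨(t l).1.map σ.toEmbedding, by rw [card_map]; exact (t l).2⟩

theorem permC1_inj (σ : Equiv.Perm α) :
    Function.Injective (permC1 (k := k) (h := h) σ) := by
  intro t t' he
  funext l
  have h1 := congrArg Subtype.val (congrFun he l)
  simp only [permC1] at h1
  exact Subtype.ext (Finset.map_injective _ h1)

theorem permC1_mem (σ : Equiv.Perm α) {t : Fin k → HSet α h} (ht : t ∈ packs α h k) :
    permC1 σ t ∈ packs α h k := by
  unfold packs at ht ⊢
  rw [mem_filter] at ht ⊢
  refine ⟨mem_univ _, fun i j hij => ?_⟩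
  simp only [permC1]
  rw [Finset.disjoint_map]
  exact ht.2 i j hij

theorem unionC1_perm (σ : Equiv.Perm α) (R0 : Finset (Fin k)) (t : Fin k → HSet α h) :
    unionC1 R0 (permC1 σ t) = (unionC1 R0 t).map σ.toEmbedding := by
  ext x
  simp only [unionC1, permC1, mem_biUnion, mem_map]
  constructor
  · rintro ⟨i, hi, y, hy, rfl⟩
    exact ⟨y, ⟨i, hi, hy⟩, rfl⟩
  · rintro ⟨y, ⟨i, hi, hy⟩, rfl⟩
    exact ⟨i, hi, y, hy, rfl⟩

theorem unionC1_card (R0 : Finset (Fin k)) {t : Fin k → HSet α h} (ht : t ∈ packs α h k) :
    (unionC1 R0 t).card = R0.card * h := by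
  unfold packs at ht
  rw [mem_filter] at ht
  unfold unionC1
  rw [card_biUnion (fun i _ j _ hij => ht.2 i j hij), sum_congr rfl (fun i _ => (t i).2)]
  simp

theorem exists_permC1 {Z Z' : Finset α} (hc : Z.card = Z'.card) :
    ∃ σ : Equiv.Perm α, Z.map σ.toEmbedding = Z' := by
  let e : {x // x ∈ Z} ≃ {x // x ∈ Z'} := Finset.equivOfCardEq hc
  refine ⟨e.extendSubtype, ?_⟩
  apply Finset.eq_of_subset_of_card_le
  · intro x hx
    rw [mem_map] at hx
    obtain ⟨y, hy, rfl⟩ := hx
    exact e.extendSubtype_mem y hy
  · rw [card_map, hc]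

theorem fibre_leC1 (R0 : Finset (Fin k)) {Z Z' : Finset α} (hc : Z.card = Z'.card) :
    ((packs α h k).filter (fun t => unionC1 R0 t = Z)).card ≤
      ((packs α h k).filter (fun t => unionC1 R0 t = Z')).card := by
  obtain ⟨σ, hσ⟩ := exists_permC1 hc
  refine Finset.card_le_card_of_injOn (permC1 σ) ?_ (permC1_inj σ).injOn
  intro t ht
  rw [mem_coe, mem_filter] at ht
  rw [mem_coe, mem_filter]
  refine ⟨permC1_mem σ ht.1, ?_⟩
  rw [unionC1_perm, ht.2, hσ]

theorem card_union (R0 : Finset (Fin k)) (Y : Finset α) :
    ((packs α h k).filter (fun t => ∀ i ∈ R0, (t i).1 ⊆ Y)).card *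
        (Fintype.card α).choose (R0.card * h) =
      Y.card.choose (R0.card * h) * (packs α h k).card := by
  classical
  have hfil : (packs α h k).filter (fun t => ∀ i ∈ R0, (t i).1 ⊆ Y) =
      (packs α h k).filter (fun t => unionC1 R0 t ⊆ Y) := by
    apply filter_congr
    intro t _
    unfold unionC1
    rw [biUnion_subset]
  rw [hfil]
  by_cases hz : ∃ Z0 : Finset α, Z0.card = R0.card * h
  · obtain ⟨Z0, hZ0⟩ := hz
    set c := ((packs α h k).filter (fun t => unionC1 R0 t = Z0)).card with hcdef
    have hc : ∀ Z : Finset α, Z.card = R0.card * h →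
        ((packs α h k).filter (fun t => unionC1 R0 t = Z)).card = c := by
      intro Z hZ
      exact le_antisymm (fibre_leC1 R0 (hZ.trans hZ0.symm)) (fibre_leC1 R0 (hZ0.trans hZ.symm))
    have h1 : (packs α h k).card = (Fintype.card α).choose (R0.card * h) * c := by
      rw [Finset.card_eq_sum_card_fiberwise (f := unionC1 R0)
        (t := powersetCard (R0.card * h) (univ : Finset α)) (fun t ht => ?_)]
      · rw [sum_congr rfl (fun Z hZ => hc Z (mem_powersetCard.mp hZ).2), sum_const,
          card_powersetCard, card_univ, smul_eq_mul]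
      · rw [mem_coe, mem_powersetCard]
        exact ⟨subset_univ _, unionC1_card R0 (mem_coe.mp ht)⟩
    have h2 : ((packs α h k).filter (fun t => unionC1 R0 t ⊆ Y)).card =
        Y.card.choose (R0.card * h) * c := by
      rw [Finset.card_eq_sum_card_fiberwise (f := unionC1 R0)
        (t := powersetCard (R0.card * h) Y) (fun t ht => ?_)]
      · rw [sum_congr rfl (fun Z hZ => ?_), sum_const, card_powersetCard, smul_eq_mul]
        · rw [filter_filter]
          rw [← hc Z (mem_powersetCard.mp hZ).2]
          congr 1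
          apply filter_congr
          intro t _
          constructor
          · rintro ⟨_, h⟩; exact h
          · intro h
            exact ⟨by rw [h]; exact (mem_powersetCard.mp hZ).1, h⟩
      · rw [mem_coe, mem_filter] at ht
        rw [mem_coe, mem_powersetCard]
        exact ⟨ht.2, unionC1_card R0 ht.1⟩
    rw [h1, h2]
    ring
  · have h0 : (packs α h k).card = 0 := by
      rw [card_eq_zero, eq_empty_iff_forall_notMem]
      intro t ht
      exact hz ⟨_, unionC1_card R0 ht⟩
    have h1 : ((packs α h k).filter (fun t => unionC1 R0 t ⊆ Y)).card = 0 := by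
      have := card_filter_le (packs α h k) (fun t => unionC1 R0 t ⊆ Y)
      omega
    rw [h0, h1]
    simp

theorem packs_pos (hα : k * h ≤ Fintype.card α) : 0 < (packs α h k).card := by
  classical
  have hcard : Fintype.card (Fin k × Fin h) ≤ Fintype.card α := by
    rw [Fintype.card_prod, Fintype.card_fin, Fintype.card_fin]
    exact hα
  obtain ⟨f⟩ := Function.Embedding.nonempty_of_card_le hcard
  rw [card_pos]
  refine ⟨fun i => ⟨(univ : Finset (Fin h)).map ⟨fun j => f (i, j), fun a b hab => ?_⟩, ?_⟩, ?_⟩
  · have := f.injective hab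
    exact (Prod.mk.inj this).2
  · rw [card_map, card_univ, Fintype.card_fin]
  · unfold packs
    rw [mem_filter]
    refine ⟨mem_univ _, fun i j hij => ?_⟩
    rw [Finset.disjoint_left]
    intro x hx hx'
    rw [mem_map] at hx hx'
    obtain ⟨a, _, ha⟩ := hx
    obtain ⟨b, _, hb⟩ := hx'
    have := f.injective (ha.trans hb.symm)
    exact hij (Prod.mk.inj this).1

end Pool.Agent.Lib.MP_8fffab_lc_RR
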