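import Pool.Agent.Lib.MP_8fffab_lc_RR.M1
import Pool.Agent.Lib.MP_8fffab_lc_RR.M4
import Pool.Agent.Lib.MP_8fffab_lc_RR.B2
import Pool.Agent.Lib.MP_8fffab_lc_RR.C1

/-!
Row C2 (main inequality). RECIPE: `h0 := max (h0 of claimB) ⌈4/(1-e)⌉` or so (so that `(1-e)(rh+1) > 1`; `e ≤ 1/2` is assumed: `(1-e)(rh+1) ≥ (rh+1)/2 > 1`). Let `P := packs`. Good `t ∈ P`: not in `notGood`, so
`(1-e)(rh+1) ≤ (reach R v).card` for `v := stopNode R r t`; by `leaf_reach` `v` is not a leaf, so by `stop_alt`, `stopOpen_card_le` the set `R0 := stopOpen R r t` has exactly `r` elements, and by `mem_stopOpen`, `mixing`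
`(t i).1 ⊆ (reach R v)ᶜ =: Y` for `i ∈ R0`, `Y.card ≤ 2rh+1 - (1-e)(rh+1) = rh + e(rh+1)`, so `Y.card ≤ y`. So the good `t` are in the union over `v : Fin s` with `(reach R v)ᶜ.card ≤ y` and `R0 ∈ powersetCard r univ` of the sets of `card_union`;
each has at most `C(y,rh) |P| / C(2rh+1,rh)` elements; there are at most `s * C(2r,r)` of them. The good `t` are at least half of `P` (`claimB`), `|P| > 0` (`packs_pos`). About 110 lines.
-/

namespace Pool.Agent.Lib.MP_8fffab_lc_RR

open Finset

/-- A good packing is stopped at a node with a large reach, with exactly `r` opened positions, whose sets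
avoid the reach. -/
private theorem good_spec {α : Type} [Fintype α] [DecidableEq α] {h s r : ℕ} {e : ℝ} (he1 : e ≤ 1 / 2)
    (hh : 1 ≤ h) (hr : 2 ≤ r) (hα : Fintype.card α = 2 * r * h + 1) (R : Ref α h (2 * r) s)
    (hR : HalfRegular R) {t : Fin (2 * r) → HSet α h} (ht : t ∈ packs α h (2 * r))
    (hg : t ∉ notGood R r e) :
    ((reach R (stopNode R r t))ᶜ).card ≤ ⌊(r * h : ℝ) + e * (r * h + 1)⌋₊ ∧
      (stopOpen R r t).card = r ∧
      ∀ i ∈ stopOpen R r t, (t i).1 ⊆ (reach R (stopNode R r t))ᶜ := by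
  classical
  have hbig : (1 - e) * (r * h + 1) ≤ ((reach R (stopNode R r t)).card : ℝ) := by
    by_contra hcon
    exact hg (by
      unfold notGood
      rw [mem_filter]
      exact ⟨ht, not_le.1 hcon⟩)
  have hrh : (2 : ℝ) ≤ (r : ℝ) * h := by
    have h1 : (2 : ℝ) ≤ r := by exact_mod_cast hr
    have h2 : (1 : ℝ) ≤ h := by exact_mod_cast hh
    nlinarith
  have hgt : (1 : ℝ) < (1 - e) * (r * h + 1) := by nlinarith
  have hnl : R.rule (stopNode R r t) ≠ none := by
    intro hleaf
    have h1 := leaf_reach R r hα ht hleaf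
    have h2 : ((reach R (stopNode R r t)).card : ℝ) ≤ 1 := by exact_mod_cast h1
    linarith
  refine ⟨?_, ?_, ?_⟩
  · apply Nat.le_floor
    rw [card_compl, hα, Nat.cast_sub]
    · push_cast
      linarith
    · rw [← hα]
      exact card_le_univ _
  · rcases stop_alt R r t with h1 | h1
    · exact absurd h1 hnl
    · exact le_antisymm (stopOpen_card_le R r t) h1
  · intro i hi u hu
    rw [mem_compl]
    exact mixing R hR (val t) _ (mem_stopOpen R r t hi) hu

theorem main_ineq (e : ℝ) (he : 0 < e) (he1 : e ≤ 1 / 2) :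
    ∃ h0 : ℕ, ∀ (α : Type) [Fintype α] [DecidableEq α] (h s r : ℕ), h0 ≤ h → 2 ≤ r →
      Fintype.card α = 2 * r * h + 1 → ∀ R : Ref α h (2 * r) s, HalfRegular R →
      (2 * r * h + 1).choose (r * h) ≤
        2 * s * (2 * r).choose r * (⌊(r * h : ℝ) + e * (r * h + 1)⌋₊).choose (r * h) := by
  classical
  obtain ⟨h1, hB⟩ := claimB e he (by linarith)
  refine ⟨max h1 1, fun α _ _ h s r hh0 hr hα R hR => ?_⟩
  have hh1 : h1 ≤ h := le_trans (le_max_left _ _) hh0
  have hh : 1 ≤ h := le_trans (le_max_right _ _) hh0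
  have hb := hB α h s r hh1 hr hα R
  set y : ℕ := ⌊(r * h : ℝ) + e * (r * h + 1)⌋₊ with hy
  have hP : 0 < (packs α h (2 * r)).card := packs_pos (by omega)
  -- the good packings
  have hsub : notGood R r e ⊆ packs α h (2 * r) := by
    unfold notGood
    exact filter_subset _ _
  have hG : (packs α h (2 * r)).card ≤ 2 * (packs α h (2 * r) \ notGood R r e).card := by
    have h2 : 2 * (notGood R r e).card ≤ (packs α h (2 * r)).card := by exact_mod_cast hb
    rw [card_sdiff_of_subset hsub]
    have := card_le_card hsub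
    omega
  -- the covering
  have hcov : packs α h (2 * r) \ notGood R r e ⊆
      (univ : Finset (Fin s)).biUnion fun v =>
        (powersetCard r (univ : Finset (Fin (2 * r)))).biUnion fun R0 =>
          if ((reach R v)ᶜ).card ≤ y then
            (packs α h (2 * r)).filter (fun t => ∀ i ∈ R0, (t i).1 ⊆ (reach R v)ᶜ) else ∅ := by
    intro t ht
    rw [mem_sdiff] at ht
    obtain ⟨h2, h3, h4⟩ := good_spec he1 hh hr hα R hR ht.1 ht.2
    rw [mem_biUnion]
    refine ⟨stopNode R r t, mem_univ _, ?_⟩
    rw [mem_biUnion]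
    refine ⟨stopOpen R r t, mem_powersetCard.2 ⟨subset_univ _, h3⟩, ?_⟩
    rw [if_pos h2, mem_filter]
    exact ⟨ht.1, h4⟩
  have hone : ∀ v : Fin s, ∀ R0 ∈ powersetCard r (univ : Finset (Fin (2 * r))),
      (if ((reach R v)ᶜ).card ≤ y then
            (packs α h (2 * r)).filter (fun t => ∀ i ∈ R0, (t i).1 ⊆ (reach R v)ᶜ) else ∅).card *
          (2 * r * h + 1).choose (r * h) ≤ y.choose (r * h) * (packs α h (2 * r)).card := by
    intro v R0 hR0
    rw [mem_powersetCard] at hR0
    split_ifs with hv
    · have h2 := card_union (h := h) R0 ((reach R v)ᶜ)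
      rw [hR0.2, hα] at h2
      rw [h2]
      exact Nat.mul_le_mul_right _ (Nat.choose_le_choose _ hv)
    · simp
  have hcard : (packs α h (2 * r) \ notGood R r e).card * (2 * r * h + 1).choose (r * h) ≤
      s * ((2 * r).choose r * (y.choose (r * h) * (packs α h (2 * r)).card)) := by
    calc (packs α h (2 * r) \ notGood R r e).card * (2 * r * h + 1).choose (r * h)
        ≤ (∑ v : Fin s, ∑ R0 ∈ powersetCard r (univ : Finset (Fin (2 * r))),
            (if ((reach R v)ᶜ).card ≤ y then
            (packs α h (2 * r)).filter (fun t => ∀ i ∈ R0, (t i).1 ⊆ (reach R v)ᶜ) else ∅).card) *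
              (2 * r * h + 1).choose (r * h) := by
          refine Nat.mul_le_mul_right _ ((card_le_card hcov).trans (card_biUnion_le.trans ?_))
          exact sum_le_sum fun v _ => card_biUnion_le
      _ = ∑ v : Fin s, ∑ R0 ∈ powersetCard r (univ : Finset (Fin (2 * r))),
            (if ((reach R v)ᶜ).card ≤ y then
            (packs α h (2 * r)).filter (fun t => ∀ i ∈ R0, (t i).1 ⊆ (reach R v)ᶜ) else ∅).card *
              (2 * r * h + 1).choose (r * h) := by
          rw [sum_mul]
          exact sum_congr rfl fun v _ => sum_mul _ _ _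
      _ ≤ ∑ _v : Fin s, ∑ _R0 ∈ powersetCard r (univ : Finset (Fin (2 * r))),
            y.choose (r * h) * (packs α h (2 * r)).card :=
          sum_le_sum fun v _ => sum_le_sum fun R0 hR0 => hone v R0 hR0
      _ = s * ((2 * r).choose r * (y.choose (r * h) * (packs α h (2 * r)).card)) := by
          rw [sum_const, sum_const, card_powersetCard, card_univ, card_univ, Fintype.card_fin,
            Fintype.card_fin, smul_eq_mul, smul_eq_mul]
  have hfin : (packs α h (2 * r)).card * (2 * r * h + 1).choose (r * h) ≤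
      (packs α h (2 * r)).card * (2 * s * (2 * r).choose r * y.choose (r * h)) := by
    calc (packs α h (2 * r)).card * (2 * r * h + 1).choose (r * h)
        ≤ 2 * (packs α h (2 * r) \ notGood R r e).card * (2 * r * h + 1).choose (r * h) :=
          Nat.mul_le_mul_right _ hG
      _ = 2 * ((packs α h (2 * r) \ notGood R r e).card * (2 * r * h + 1).choose (r * h)) := by
          ring
      _ ≤ 2 * (s * ((2 * r).choose r * (y.choose (r * h) * (packs α h (2 * r)).card))) :=
          Nat.mul_le_mul_left _ hcard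
      _ = (packs α h (2 * r)).card * (2 * s * (2 * r).choose r * y.choose (r * h)) := by ring
  exact Nat.le_of_mul_le_mul_left hfin hP

end Pool.Agent.Lib.MP_8fffab_lc_RR
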