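import Mathlib

/-!
Resolution refutations as directed acyclic graphs, regularity, and the propositional formula which says that
`k` members of a family of sets cover the ground set.
-/

namespace Pool.Agent.Lib.MP_8fffab_lc_RR

/-- A resolution refutation with `s` nodes from a set `Ax` of clauses over the variables `X`. A literal is a pair
`(x, true)` (the variable) or `(x, false)` (its negation), a clause is a set of literals. Every node `v` carries
the clause `clause v`. If `rule v = none`, the node is a leaf and its clause contains a clause of `Ax`. If
`rule v = some (x, p, q)`, the clause of `v` follows from those of `p` and `q` by resolution on `x` and weakening: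
apart from the literal `x` every literal of `clause p`, and apart from the negation of `x` every literal of
`clause q`, is in `clause v`. Ranks decrease from conclusions to premises (so there is no cycle), and the root
carries the empty clause. -/
structure Refutation (X : Type) (Ax : Set (Set (X × Bool))) (s : ℕ) where
  clause : Fin s → Set (X × Bool)
  rule : Fin s → Option (X × Fin s × Fin s)
  rank : Fin s → ℕ
  root : Fin s
  root_empty : clause root = ∅
  leaf_ok : ∀ v, rule v = none → ∃ C ∈ Ax, C ⊆ clause v
  res_ok : ∀ v x p q, rule v = some (x, p, q) →
    clause p ⊆ insert (x, true) (clause v) ∧ clause q ⊆ insert (x, false) (clause v) ∧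
      rank p < rank v ∧ rank q < rank v

/-- `Path R u v L`: there is a path from the node `u` to the node `v` of the refutation `R`, from conclusions to
premises, with the answers `L` (the last one first): `(x, false)` if the path goes from a resolution on `x` to
the premise with the literal `x`, and `(x, true)` if it goes to the premise with the negation of `x`. -/
inductive Path {X : Type} {Ax : Set (Set (X × Bool))} {s : ℕ} (R : Refutation X Ax s) (u : Fin s) :
    Fin s → List (X × Bool) → Prop
  | nil : Path R u u []
  | no {v : Fin s} {L : List (X × Bool)} {x : X} {p q : Fin s} :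
      Path R u v L → R.rule v = some (x, p, q) → Path R u p ((x, false) :: L)
  | yes {v : Fin s} {L : List (X × Bool)} {x : X} {p q : Fin s} :
      Path R u v L → R.rule v = some (x, p, q) → Path R u q ((x, true) :: L)

/-- Regular: no path from the root resolves twice on the same variable. -/
def Regular {X : Type} {Ax : Set (Set (X × Bool))} {s : ℕ} (R : Refutation X Ax s) : Prop :=
  ∀ v L, Path R R.root v L → (L.map Prod.fst).Nodup

/-- Half regular: no path from the root gives a variable the value `1` and later the value `0`. -/
def HalfRegular {X : Type} {Ax : Set (Set (X × Bool))} {s : ℕ} (R : Refutation X Ax s) : Prop :=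
  ∀ v L x, Path R R.root v ((x, false) :: L) → (x, true) ∉ L

/-- The variables are the pairs `(i, a)`: the `i`-th chosen set is `F a`. The clause `cov F k u` says that the
element `u` lies in one of the `k` chosen sets. -/
def cov {α ι : Type} (F : ι → Finset α) (k : ℕ) (u : α) : Set ((Fin k × ι) × Bool) :=
  {l | u ∈ F l.1.2 ∧ l.2 = true}

/-- The clause `C` is true if the `i`-th chosen set is `F (t i)` for all `i`. -/
def Holds {ι : Type} {k : ℕ} (t : Fin k → ι) (C : Set ((Fin k × ι) × Bool)) : Prop :=
  ∃ l ∈ C, (t l.1.1 = l.1.2 ↔ l.2 = true)

/-- The formula: every element is covered, some set is the `i`-th chosen one, and not two. -/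
def Standard {α ι : Type} (F : ι → Finset α) (k : ℕ) : Set (Set ((Fin k × ι) × Bool)) :=
  {C | (∃ u, C = cov F k u) ∨ (∃ i, C = {l | l.1.1 = i ∧ l.2 = true}) ∨
    (∃ i a a', a ≠ a' ∧ C = {((i, a), false), ((i, a'), false)})}

/-- The clauses `cov F k u` and all clauses which are true for every choice of `k` sets. -/
def Liberal {α ι : Type} (F : ι → Finset α) (k : ℕ) : Set (Set ((Fin k × ι) × Bool)) :=
  {C | (∃ u, C = cov F k u) ∨ ∀ t : Fin k → ι, Holds t C}

end Pool.Agent.Lib.MP_8fffab_lc_RR
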