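import Pool.Agent.Lib.MP_8fffab_lc_RR.Defs

/-!
Internal definitions for the lower bound.
-/

namespace Pool.Agent.Lib.MP_8fffab_lc_RR

open Finset

section general

variable {X : Type} {Ax : Set (Set (X × Bool))} {s : ℕ}

/-- The next node on the run of the assignment `a`. -/
def next (R : Refutation X Ax s) (a : X → Bool) (v : Fin s) : Fin s :=
  match R.rule v with
  | none => v
  | some (x, p, q) => bif a x then q else p

/-- The node on the run of `a` after `n` steps. -/
def nodeAt (R : Refutation X Ax s) (a : X → Bool) : ℕ → Fin s
  | 0 => R.root
  | n + 1 => next R a (nodeAt R a n)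

/-- The answers on the run of `a` during the first `n` steps, the last one first. -/
def trace (R : Refutation X Ax s) (a : X → Bool) : ℕ → List (X × Bool)
  | 0 => []
  | n + 1 =>
    match R.rule (nodeAt R a n) with
    | none => trace R a n
    | some (x, _, _) => (x, a x) :: trace R a n

end general

section cover

variable {α : Type} [Fintype α] [DecidableEq α] {k h s : ℕ}

/-- The sets with `h` elements. -/
abbrev HSet (α : Type) (h : ℕ) : Type := {A : Finset α // A.card = h}

/-- The formula. -/
abbrev Ref (α : Type) (h k s : ℕ) : Type :=
  Refutation (Fin k × HSet α h) (Liberal (fun A : HSet α h => A.1) k) s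

/-- The assignment of a tuple. -/
def val (t : Fin k → HSet α h) : Fin k × HSet α h → Bool := fun x => decide (t x.1 = x.2)

/-- The assignment of a tuple in which the positions `i` and `j` are silent. -/
def sil (t : Fin k → HSet α h) (i j : Fin k) : Fin k × HSet α h → Bool :=
  fun x => decide (x.1 ≠ i ∧ x.1 ≠ j ∧ t x.1 = x.2)

/-- The elements `u` such that a leaf which contains `cov u` can be reached from `v`. -/
noncomputable def reach (R : Ref α h k s) (v : Fin s) : Finset α := by
  classical
  exact univ.filter (fun u => ∃ w L, Path R v w L ∧ R.rule w = none ∧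
    cov (fun A : HSet α h => A.1) k u ⊆ R.clause w)

/-- The positions opened on the run of `a` during the first `n` steps. -/
noncomputable def opened (R : Ref α h k s) (a : Fin k × HSet α h → Bool) (n : ℕ) : Finset (Fin k) := by
  classical
  exact univ.filter (fun i => ∃ c, ((i, c), true) ∈ trace R a n)

/-- The stopping time: a leaf is reached or `r` positions are opened. -/
noncomputable def tau (R : Ref α h k s) (r : ℕ) (a : Fin k × HSet α h → Bool) : ℕ :=
  sInf {n | R.rule (nodeAt R a n) = none ∨ r ≤ (opened R a n).card}

/-- The packings: `k` disjoint sets. -/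
def packs (α : Type) [Fintype α] [DecidableEq α] (h k : ℕ) : Finset (Fin k → HSet α h) :=
  univ.filter (fun t => ∀ i j, i ≠ j → Disjoint (t i).1 (t j).1)

/-- The node at which the run of `t` is stopped. -/
noncomputable def stopNode (R : Ref α h k s) (r : ℕ) (t : Fin k → HSet α h) : Fin s :=
  nodeAt R (val t) (tau R r (val t))

/-- The positions opened on the run of `t` when it is stopped. -/
noncomputable def stopOpen (R : Ref α h k s) (r : ℕ) (t : Fin k → HSet α h) : Finset (Fin k) :=
  opened R (val t) (tau R r (val t))

/-- Boundary pairs of `T` inside `W` at level `j`. -/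
noncomputable def bnd (W : Finset α) (T : Finset α → Prop) (j : ℕ) : Finset (Finset α × α) := by
  classical
  exact ((powersetCard j W) ×ˢ W).filter (fun p => p.2 ∉ p.1 ∧ T p.1 ∧ ¬ T (insert p.2 p.1))

/-- Pairs of an `h`-subset `A` of `V` and an element `u` of `V` outside `A` such that `A ∩ W` satisfies `T`
and `(A + u) ∩ W` does not. -/
noncomputable def pairs (V W : Finset α) (T : Finset α → Prop) (h : ℕ) : Finset (Finset α × α) := by
  classical
  exact ((powersetCard h V) ×ˢ V).filter
    (fun p => p.2 ∉ p.1 ∧ T (p.1 ∩ W) ∧ ¬ T (insert p.2 p.1 ∩ W))

/-- The packings for which the positions `i` and `j` are unopened when the run is stopped, and at least `d`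
elements of the `i`-th set are not in `reach` of the stopping node. -/
noncomputable def badPacks (R : Ref α h k s) (r : ℕ) (d : ℝ) (i j : Fin k) :
    Finset (Fin k → HSet α h) := by
  classical
  exact (packs α h k).filter (fun t => i ∉ stopOpen R r t ∧ j ∉ stopOpen R r t ∧
    d ≤ (((t i).1 \ reach R (stopNode R r t)).card : ℝ))

/-- The packings which are not good. -/
noncomputable def notGood (R : Ref α h k s) (r : ℕ) (e : ℝ) : Finset (Fin k → HSet α h) := by
  classical
  exact (packs α h k).filter (fun t =>
    ((reach R (stopNode R r t)).card : ℝ) < (1 - e) * (r * h + 1))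

/-- The packings which agree with `t0` outside the positions `i` and `j`. -/
noncomputable def fib (t0 : Fin k → HSet α h) (i j : Fin k) : Finset (Fin k → HSet α h) := by
  classical
  exact (packs α h k).filter (fun t => ∀ l, l ≠ i → l ≠ j → t l = t0 l)

/-- The elements which are in none of the sets of `t0` with a position other than `i` and `j`. -/
noncomputable def rest (t0 : Fin k → HSet α h) (i j : Fin k) : Finset α := by
  classical
  exact univ.filter (fun u => ∀ l, l ≠ i → l ≠ j → u ∉ (t0 l).1)

end cover

end Pool.Agent.Lib.MP_8fffab_lc_RR
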