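import Mathlib

/-!
Row N1 (numerics, Mathlib only). With `n = 2rh+1`: `2 ^ n ≤ 2 n C(n,rh)`; `C(2r,r) ≤ 2^(2r) ≤ θ^n`;
`C(y,c) ≤ (1+q)^n (1/q)^c` and `C(n,h) ≤ (1+q)^n (1/q)^h`. With `B θ^5 = 2` everything multiplied is
smaller than `2 ^ n`.
-/

namespace Pool.Agent.Lib.MP_8fffab_lc_RR

open Finset

private theorem choose_le_q {q : ℝ} (hq : 0 < q) {y c n : ℕ} (hy : y ≤ n) (hc : c ≤ y) :
    ((y.choose c : ℕ) : ℝ) ≤ (1 + q) ^ n * (1 / q) ^ c := by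
  have h1 : (y.choose c : ℝ) * q ^ c ≤ (1 + q) ^ y := by
    rw [add_comm 1 q, add_pow]
    have h2 := Finset.single_le_sum (f := fun m => q ^ m * 1 ^ (y - m) * ((y.choose m : ℕ) : ℝ))
      (s := range (y + 1)) (fun i _ => by positivity) (Finset.mem_range.2 (Nat.lt_succ_of_le hc))
    simp only [one_pow, mul_one] at h2 ⊢
    linarith [mul_comm (y.choose c : ℝ) (q ^ c)]
  have h3 : (1 + q) ^ y ≤ (1 + q) ^ n := pow_le_pow_right₀ (by linarith) hy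
  rw [one_div, inv_pow, ← div_eq_mul_inv, le_div_iff₀ (by positivity)]
  exact h1.trans h3

private theorem two_pow_le' (k : ℕ) (hk : 0 < k) :
    (2 : ℝ) ^ (2 * k + 1) ≤ 2 * (2 * k + 1 : ℕ) * ((2 * k + 1).choose k : ℕ) := by
  have h1 := Nat.four_pow_le_two_mul_self_mul_centralBinom k hk
  have h2 : Nat.centralBinom k ≤ (2 * k + 1).choose k := by
    rw [Nat.centralBinom_eq_two_mul_choose]
    exact Nat.choose_le_choose k (by omega)
  have h3 : 2 ^ (2 * k + 1) ≤ 2 * (2 * k + 1) * (2 * k + 1).choose k := by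
    calc 2 ^ (2 * k + 1) = 2 * 4 ^ k := by rw [pow_succ, pow_mul]; norm_num; ring
      _ ≤ 2 * (2 * k * Nat.centralBinom k) := Nat.mul_le_mul_left _ h1
      _ ≤ 2 * ((2 * k + 1) * (2 * k + 1).choose k) :=
        Nat.mul_le_mul_left _ (Nat.mul_le_mul (by omega) h2)
      _ = _ := by ring
  exact_mod_cast h3

theorem numeric (b : ℝ) (C : ℕ) (hb0 : 0 ≤ b) (hb : b < 2) :
    ∃ (e : ℝ) (N : ℕ), 0 < e ∧ e ≤ 1 / 2 ∧ ∀ h r s : ℕ, N ≤ h → N ≤ r →
      (2 * r * h + 1).choose (r * h) ≤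
        2 * s * (2 * r).choose r * (⌊(r * h : ℝ) + e * (r * h + 1)⌋₊).choose (r * h) →
      b ^ (2 * r * h + 1) * (((2 * r * h + 1).choose h * (2 * r * h + 1) : ℕ) : ℝ) ^ C < s := by
  -- the base
  obtain ⟨B, hB1, hBb, hB2⟩ : ∃ B : ℝ, 1 ≤ B ∧ b ≤ B ∧ B < 2 :=
    ⟨max b 1, le_max_right _ _, le_max_left _ _, max_lt hb (by norm_num)⟩
  have hB0 : 0 < B := by linarith
  obtain ⟨θ, hθ1, hθ⟩ : ∃ θ : ℝ, 1 < θ ∧ B * θ ^ 5 = 2 := by
    refine ⟨(2 / B) ^ ((1 : ℝ) / 5), ?_, ?_⟩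
    · exact Real.one_lt_rpow ((one_lt_div hB0).2 hB2) (by norm_num)
    · rw [← Real.rpow_natCast, ← Real.rpow_mul (by positivity)]
      norm_num
      field_simp
  have hθ0 : 0 < θ := by linarith
  -- q
  obtain ⟨q, hq0, hq1, hq⟩ : ∃ q : ℝ, 0 < q ∧ q ≤ 1 ∧ (1 + q) ^ (C + 1) ≤ θ := by
    refine ⟨min 1 (θ ^ ((1 : ℝ) / (C + 1 : ℕ)) - 1), ?_, min_le_left _ _, ?_⟩
    · refine lt_min one_pos ?_
      have := Real.one_lt_rpow hθ1 (z := (1 : ℝ) / (C + 1 : ℕ)) (by positivity)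
      linarith
    · have h1 : 1 + min 1 (θ ^ ((1 : ℝ) / (C + 1 : ℕ)) - 1) ≤ θ ^ ((1 : ℝ) / (C + 1 : ℕ)) := by
        have := min_le_right 1 (θ ^ ((1 : ℝ) / (C + 1 : ℕ)) - 1)
        linarith
      have h0 : 0 ≤ 1 + min 1 (θ ^ ((1 : ℝ) / (C + 1 : ℕ)) - 1) := by
        have h2 := Real.one_lt_rpow hθ1 (z := (1 : ℝ) / (C + 1 : ℕ)) (by positivity)
        have h3 : 0 ≤ min 1 (θ ^ ((1 : ℝ) / (C + 1 : ℕ)) - 1) := le_min zero_le_one (by linarith)
        linarith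
      refine (pow_le_pow_left₀ h0 h1 (C + 1)).trans ?_
      rw [← Real.rpow_natCast, ← Real.rpow_mul hθ0.le]
      rw [one_div, inv_mul_cancel₀ (by positivity), Real.rpow_one]
  have hqi : 1 ≤ 1 / q := by rw [le_div_iff₀ hq0]; linarith
  -- the exponents
  obtain ⟨m, hm⟩ : ∃ m : ℕ, (1 / q) ^ (C + 1) < θ ^ m := pow_unbounded_of_one_lt _ hθ1
  obtain ⟨m', hm'⟩ : ∃ m' : ℕ, (2 : ℝ) < θ ^ m' := pow_unbounded_of_one_lt _ hθ1
  obtain ⟨N₀, hN₀⟩ : ∃ N₀ : ℕ, ∀ n : ℕ, N₀ ≤ n → 4 * (n : ℝ) ^ (C + 1) < θ ^ n := by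
    have h1 := tendsto_pow_const_div_const_pow_of_one_lt (C + 1) hθ1
    have h2 := h1.eventually (gt_mem_nhds (show (0 : ℝ) < 1 / 4 by norm_num))
    obtain ⟨N₀, hN₀⟩ := Filter.eventually_atTop.1 h2
    refine ⟨N₀, fun n hn => ?_⟩
    have h3 := hN₀ n hn
    rw [div_lt_iff₀ (by positivity)] at h3
    linarith
  refine ⟨1 / (m + 2), m + m' + N₀ + 1, by positivity, ?_, ?_⟩
  · rw [div_le_div_iff₀ (by positivity) (by norm_num)]
    have : (0 : ℝ) ≤ m := by positivity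
    linarith
  intro h r s hh hr hch
  set k := r * h with hk
  have hkpos : 0 < k := Nat.mul_pos (by omega) (by omega)
  set n := 2 * r * h + 1 with hn
  have hnk : n = 2 * k + 1 := by rw [hn, hk]; ring
  set y := ⌊(r * h : ℝ) + 1 / (m + 2) * (r * h + 1)⌋₊ with hy
  have hrh : ((r : ℝ) * h) = (k : ℝ) := by rw [hk]; push_cast; ring
  have hy1 : k ≤ y := by
    rw [hy, hrh]
    refine Nat.le_floor ?_
    have : (0 : ℝ) ≤ 1 / (m + 2) * ((k : ℝ) + 1) := by positivity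
    linarith
  have hy2 : (y : ℝ) ≤ k + 1 / (m + 2) * (k + 1) := by
    rw [hy, hrh]
    exact Nat.floor_le (by positivity)
  obtain ⟨c, hc⟩ : ∃ c, y = k + c := ⟨y - k, by omega⟩
  have hmc : (m + 2) * c ≤ k + 1 := by
    have h1 : (c : ℝ) ≤ 1 / (m + 2) * (k + 1) := by
      rw [hc] at hy2
      push_cast at hy2
      linarith
    have h2 : ((m : ℝ) + 2) * c ≤ k + 1 := by
      calc ((m : ℝ) + 2) * c ≤ ((m : ℝ) + 2) * (1 / (m + 2) * (k + 1)) := by gcongr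
        _ = k + 1 := by field_simp
    exact_mod_cast h2
  have hcn : y ≤ n := by nlinarith
  -- bounds of the factors
  have hbn : b ^ n ≤ B ^ n := pow_le_pow_left₀ hb0 hBb n
  have hCn : ((n.choose h : ℕ) : ℝ) ≤ (1 + q) ^ n * (1 / q) ^ h := by
    refine choose_le_q hq0 le_rfl ?_
    rw [hnk, hk]; nlinarith
  have hCy : ((y.choose k : ℕ) : ℝ) ≤ (1 + q) ^ n * (1 / q) ^ c := by
    have h1 : y.choose k = y.choose c := by
      rw [hc, Nat.choose_symm_add]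
    rw [h1]
    exact choose_le_q hq0 hcn (by omega)
  have hCr : (((2 * r).choose r : ℕ) : ℝ) ≤ θ ^ n := by
    have h1 : (2 * r).choose r ≤ 2 ^ (2 * r) := Nat.choose_le_two_pow _ _
    have h2 : (((2 * r).choose r : ℕ) : ℝ) ≤ 2 ^ (2 * r) := by exact_mod_cast h1
    refine h2.trans ?_
    calc (2 : ℝ) ^ (2 * r) ≤ (θ ^ m') ^ (2 * r) := pow_le_pow_left₀ (by norm_num) hm'.le _
      _ = θ ^ (m' * (2 * r)) := by rw [← pow_mul]
      _ ≤ θ ^ n := by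
        refine pow_le_pow_right₀ hθ1.le ?_
        have : m' ≤ h := by omega
        rw [hn]; nlinarith
  have hqh : (1 / q) ^ (h * C) ≤ θ ^ n := by
    calc (1 / q) ^ (h * C) ≤ (1 / q) ^ (h * (C + 1)) :=
          pow_le_pow_right₀ hqi (Nat.mul_le_mul_left _ (by omega))
      _ = ((1 / q) ^ (C + 1)) ^ h := by rw [← pow_mul, mul_comm]
      _ ≤ (θ ^ m) ^ h := pow_le_pow_left₀ (by positivity) hm.le _
      _ = θ ^ (m * h) := by rw [← pow_mul]
      _ ≤ θ ^ n := by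
        refine pow_le_pow_right₀ hθ1.le ?_
        have : m ≤ r := by omega
        rw [hn]; nlinarith
  have hqc : (1 / q) ^ c ≤ θ ^ n := by
    calc (1 / q) ^ c ≤ (1 / q) ^ (c * (C + 1)) :=
          pow_le_pow_right₀ hqi (Nat.le_mul_of_pos_right _ (by omega))
      _ = ((1 / q) ^ (C + 1)) ^ c := by rw [← pow_mul, mul_comm]
      _ ≤ (θ ^ m) ^ c := pow_le_pow_left₀ (by positivity) hm.le _
      _ = θ ^ (m * c) := by rw [← pow_mul]
      _ ≤ θ ^ n := by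
        refine pow_le_pow_right₀ hθ1.le ?_
        nlinarith
  have hqq : ((1 + q) ^ n) ^ (C + 1) ≤ θ ^ n := by
    rw [← pow_mul, mul_comm n, pow_mul]
    exact pow_le_pow_left₀ (by positivity) hq n
  have hpoly : 4 * (n : ℝ) ^ (C + 1) < θ ^ n := hN₀ n (by rw [hn]; nlinarith)
  have hnpos : (0 : ℝ) < n := by rw [hn]; positivity
  -- everything together
  have hbig : b ^ n * (((n.choose h * n : ℕ) : ℕ) : ℝ) ^ C *
      (2 * ((2 * r).choose r : ℕ) * (y.choose k : ℕ)) * (2 * n) < 2 ^ n := by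
    have e1 : (((n.choose h * n : ℕ) : ℕ) : ℝ) ^ C ≤ ((1 + q) ^ n * (1 / q) ^ h * n) ^ C := by
      push_cast
      gcongr
    calc b ^ n * (((n.choose h * n : ℕ) : ℕ) : ℝ) ^ C *
      (2 * ((2 * r).choose r : ℕ) * (y.choose k : ℕ)) * (2 * n)
        ≤ B ^ n * ((1 + q) ^ n * (1 / q) ^ h * n) ^ C *
          (2 * θ ^ n * ((1 + q) ^ n * (1 / q) ^ c)) * (2 * n) := by gcongr
      _ = B ^ n * ((1 + q) ^ n) ^ (C + 1) * (1 / q) ^ (h * C) * (1 / q) ^ c * θ ^ n *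
          (4 * (n : ℝ) ^ (C + 1)) := by
          rw [mul_pow, mul_pow, ← pow_mul (1 / q) h C]; ring
      _ ≤ B ^ n * θ ^ n * θ ^ n * θ ^ n * θ ^ n * (4 * (n : ℝ) ^ (C + 1)) := by gcongr
      _ < B ^ n * θ ^ n * θ ^ n * θ ^ n * θ ^ n * θ ^ n :=
          mul_lt_mul_of_pos_left hpoly (by positivity)
      _ = (B * θ ^ 5) ^ n := by rw [mul_pow, ← pow_mul]; ring
      _ = 2 ^ n := by rw [hθ]
  have h2n : (2 : ℝ) ^ n ≤ 2 * n * (n.choose k : ℕ) := by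
    have := two_pow_le' k hkpos
    rw [← hnk] at this
    exact this
  have hch' : ((n.choose k : ℕ) : ℝ) ≤ s * (2 * ((2 * r).choose r : ℕ) * (y.choose k : ℕ)) := by
    have : ((n.choose k : ℕ) : ℝ) ≤ ((2 * s * (2 * r).choose r * y.choose k : ℕ) : ℝ) := by
      exact_mod_cast hch
    push_cast at this ⊢
    linarith
  have hP : (0 : ℝ) < 2 * ((2 * r).choose r : ℕ) * (y.choose k : ℕ) := by
    have h1 : 0 < (2 * r).choose r := Nat.choose_pos (by omega)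
    have h2 : 0 < y.choose k := Nat.choose_pos hy1
    positivity
  by_contra hcon
  push Not at hcon
  have h5 : (s : ℝ) * (2 * ((2 * r).choose r : ℕ) * (y.choose k : ℕ)) * (2 * n) ≤
      b ^ n * (((n.choose h * n : ℕ) : ℕ) : ℝ) ^ C *
      (2 * ((2 * r).choose r : ℕ) * (y.choose k : ℕ)) * (2 * n) := by
    gcongr
  have h6 : ((n.choose k : ℕ) : ℝ) * (2 * n) ≤
      s * (2 * ((2 * r).choose r : ℕ) * (y.choose k : ℕ)) * (2 * n) := by gcongr
  linarith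

end Pool.Agent.Lib.MP_8fffab_lc_RR
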