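import Pool.Agent.Lib.MP_8fffab_lc_RR.Defs

/-!
Upper bound: dynamic programming over the subsets of the ground set is a regular resolution refutation.
-/

namespace Pool.Agent.Lib.MP_8fffab_lc_RR

open Finset

/-- A refutation whose nodes form an arbitrary finite type, regular because of the sets `A v` of variables which
may have been asked before `v`. -/
private theorem of_fintype {X : Type} {Ax : Set (Set (X × Bool))} {N : Type} [Fintype N]
    (cl : N → Set (X × Bool)) (ru : N → Option (X × N × N)) (rk : N → ℕ) (rt : N) (A : N → Set X)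
    (h_root : cl rt = ∅) (h_leaf : ∀ v, ru v = none → ∃ C ∈ Ax, C ⊆ cl v)
    (h_res : ∀ v x p q, ru v = some (x, p, q) →
      cl p ⊆ insert (x, true) (cl v) ∧ cl q ⊆ insert (x, false) (cl v) ∧ rk p < rk v ∧ rk q < rk v)
    (h_reg : ∀ v x p q, ru v = some (x, p, q) → x ∉ A v ∧ insert x (A v) ⊆ A p ∧ insert x (A v) ⊆ A q) :
    ∃ R : Refutation X Ax (Fintype.card N), Regular R := by
  classical
  let e : N ≃ Fin (Fintype.card N) := Fintype.equivFin N
  have key : ∀ v x p q, (ru (e.symm v)).map (fun y => (y.1, e y.2.1, e y.2.2)) = some (x, p, q) →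
      ru (e.symm v) = some (x, e.symm p, e.symm q) := by
    intro v x p q h
    rw [Option.map_eq_some_iff] at h
    obtain ⟨⟨x', p', q'⟩, h1, h2⟩ := h
    simp only [Prod.mk.injEq] at h2
    obtain ⟨rfl, rfl, rfl⟩ := h2
    rw [h1]; simp
  let R : Refutation X Ax (Fintype.card N) :=
    { clause := fun v => cl (e.symm v)
      rule := fun v => (ru (e.symm v)).map (fun y => (y.1, e y.2.1, e y.2.2))
      rank := fun v => rk (e.symm v)
      root := e rt
      root_empty := by simp [h_root]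
      leaf_ok := by
        intro v hv
        exact h_leaf _ (by simpa using hv)
      res_ok := by
        intro v x p q h
        exact h_res _ _ _ _ (key v x p q h) }
  refine ⟨R, ?_⟩
  have main : ∀ v L, Path R R.root v L → (L.map Prod.fst).Nodup ∧ ∀ x ∈ L.map Prod.fst, x ∈ A (e.symm v) := by
    intro v L hp
    induction hp with
    | nil => simp
    | @no v L x p q hp hr ih =>
      obtain ⟨h1, h2, -⟩ := h_reg _ _ _ _ (key v x p q hr)
      refine ⟨?_, ?_⟩
      · simp only [List.map_cons, List.nodup_cons]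
        exact ⟨fun hx => h1 (ih.2 x hx), ih.1⟩
      · intro y hy
        simp only [List.map_cons, List.mem_cons] at hy
        rcases hy with rfl | hy
        · exact h2 (Set.mem_insert _ _)
        · exact h2 (Set.mem_insert_of_mem _ (ih.2 y hy))
    | @yes v L x p q hp hr ih =>
      obtain ⟨h1, -, h2⟩ := h_reg _ _ _ _ (key v x p q hr)
      refine ⟨?_, ?_⟩
      · simp only [List.map_cons, List.nodup_cons]
        exact ⟨fun hx => h1 (ih.2 x hx), ih.1⟩
      · intro y hy
        simp only [List.map_cons, List.mem_cons] at hy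
        rcases hy with rfl | hy
        · exact h2 (Set.mem_insert _ _)
        · exact h2 (Set.mem_insert_of_mem _ (ih.2 y hy))
  exact fun v L hp => (main v L hp).1

section dp

variable {n m : ℕ} (F : Fin m → Finset (Fin n)) (k : ℕ)

/-- No `k - i` of the sets cover `B`. -/
private def live (i : ℕ) (B : Finset (Fin n)) : Prop :=
  ∀ t : Fin (k - i) → Fin m, ∃ u ∈ B, ∀ j, u ∉ F (t j)

private theorem live_succ {i : ℕ} (hi : i < k) {B : Finset (Fin n)} (h : live F k i B) (l : Fin m) :
    live F k (i + 1) (B \ F l) := by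
  intro t
  obtain ⟨u, hu, hj⟩ := h (fun j => if hj : j.1 < k - (i + 1) then t ⟨j.1, hj⟩ else l)
  have hl : u ∉ F l := by
    have := hj ⟨k - (i + 1), by omega⟩
    simpa using this
  refine ⟨u, by simp [hu, hl], fun j => ?_⟩
  have := hj ⟨j.1, by have := j.2; omega⟩
  simpa [j.2] using this

/-- The nodes. -/
private abbrev Nd (n m k : ℕ) : Type := Fin (k + 1) × Finset (Fin n) × Fin (m + 1) × Fin (m + 1) × Bool

private def ok (v : Nd n m k) : Prop :=
  (v.2.2.2.2 = true ∧ v.1.1 < k ∧ v.2.2.1.1 < v.2.2.2.1.1 ∧ v.2.2.2.1.1 < m) ∨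
    (v.2.2.2.2 = false ∧ live F k v.1.1 v.2.1 ∧
      (v.2.2.2.1.1 = 0 ∨ (v.1.1 < k ∧ v.2.2.1.1 < v.2.2.2.1.1 ∧ v.2.2.2.1.1 < m)))

/-- Clauses of the first phase. -/
private def cP (i : ℕ) (B : Finset (Fin n)) (l : ℕ) : Set ((Fin k × Fin m) × Bool) :=
  {z | z.2 = true ∧ ((z.1.1.1 < i ∧ ∃ u ∈ B, u ∈ F z.1.2) ∨ (z.1.1.1 = i ∧ z.1.2.1 < l))}

/-- Clauses of the second phase. -/
private def cQ (i : ℕ) (B : Finset (Fin n)) (l q : ℕ) : Set ((Fin k × Fin m) × Bool) :=
  {z | (z.2 = true ∧ (z.1.1.1 < i ∨ (z.1.1.1 = i ∧ z.1.2.1 < q)) ∧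
      ∃ u ∈ B, (∀ a : Fin m, a.1 = l → u ∉ F a) ∧ u ∈ F z.1.2) ∨
    (z.2 = false ∧ z.1.1.1 = i ∧ z.1.2.1 = l)}

/-- Clauses of the leaves of the second phase. -/
private def cB (m k : ℕ) (i l q : ℕ) : Set ((Fin k × Fin m) × Bool) :=
  {z | z.2 = false ∧ z.1.1.1 = i ∧ (z.1.2.1 = l ∨ z.1.2.1 = q)}

open Classical in
private noncomputable def cl (v : Nd n m k) : Set ((Fin k × Fin m) × Bool) :=
  if ok F k v then
    (if v.2.2.2.2 = true then cB m k v.1.1 v.2.2.1.1 v.2.2.2.1.1
    else if v.2.2.2.1.1 = 0 then cP F k v.1.1 v.2.1 v.2.2.1.1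
    else cQ F k v.1.1 v.2.1 v.2.2.1.1 v.2.2.2.1.1)
  else Set.univ

private def nx (i : Fin (k + 1)) (hi : i.1 < k) (B : Finset (Fin n)) (l : Fin (m + 1)) (hl : l.1 < m)
    (q : ℕ) : Nd n m k :=
  if hq : q < m then (i, B, l, ⟨q, by omega⟩, false)
  else (⟨i.1 + 1, by omega⟩, B \ F ⟨l.1, hl⟩, 0, 0, false)

open Classical in
private noncomputable def ru (v : Nd n m k) : Option ((Fin k × Fin m) × Nd n m k × Nd n m k) :=
  if hv : ok F k v ∧ v.2.2.2.2 = false ∧ v.1.1 < k then
    (if hq : v.2.2.2.1.1 = 0 then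
      (if hl : v.2.2.1.1 < m then
        some ((⟨v.1.1, hv.2.2⟩, ⟨v.2.2.1.1, hl⟩),
          (v.1, v.2.1, ⟨v.2.2.1.1 + 1, by omega⟩, 0, false),
          nx F k v.1 hv.2.2 v.2.1 v.2.2.1 hl (v.2.2.1.1 + 1))
      else none)
    else
      (if hl : v.2.2.1.1 < v.2.2.2.1.1 ∧ v.2.2.2.1.1 < m then
        some ((⟨v.1.1, hv.2.2⟩, ⟨v.2.2.2.1.1, hl.2⟩),
          nx F k v.1 hv.2.2 v.2.1 v.2.2.1 (by omega) (v.2.2.2.1.1 + 1),
          (v.1, v.2.1, v.2.2.1, v.2.2.2.1, true))
      else none))
  else none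

private def rk (v : Nd n m k) : ℕ :=
  if v.2.2.2.2 = true then 0
  else 1 + (k - v.1.1) * (2 * m + 3) +
    (if v.2.2.2.1.1 = 0 then 2 * m + 2 - v.2.2.1.1 else m - v.2.2.2.1.1)

private def asked (v : Nd n m k) : Set (Fin k × Fin m) :=
  if v.2.2.2.2 = true then Set.univ
  else if v.2.2.2.1.1 = 0 then {x | x.1.1 < v.1.1 ∨ (x.1.1 = v.1.1 ∧ x.2.1 < v.2.2.1.1)}
  else {x | x.1.1 < v.1.1 ∨ (x.1.1 = v.1.1 ∧ x.2.1 < v.2.2.2.1.1)}

/-- All facts about the node `nx`. -/
private theorem nx_facts (i : Fin (k + 1)) (hi : i.1 < k) (B : Finset (Fin n)) (l : Fin (m + 1))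
    (hl : l.1 < m) (q : ℕ) (hq : l.1 < q) (hB : live F k i.1 B) :
    cl F k (nx F k i hi B l hl q) ⊆ cQ F k i.1 B l.1 q ∧
      rk k (nx F k i hi B l hl q) ≤ 1 + (k - i.1) * (2 * m + 3) + (m - q) ∧
      {x : Fin k × Fin m | x.1.1 < i.1 ∨ (x.1.1 = i.1 ∧ x.2.1 < q)} ⊆ asked k (nx F k i hi B l hl q) := by
  by_cases hqm : q < m
  · have h0 : nx F k i hi B l hl q = (i, B, l, ⟨q, by omega⟩, false) := by simp [nx, hqm]
    have hok : ok F k (nx F k i hi B l hl q) := by
      rw [h0]; right; exact ⟨rfl, hB, Or.inr ⟨hi, hq, hqm⟩⟩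
    have hq0 : q ≠ 0 := by omega
    refine ⟨?_, ?_, ?_⟩
    · rw [cl, if_pos hok, h0]
      simp [hq0]
    · rw [h0]; simp [rk, hq0]
    · rw [h0]; simp [asked, hq0]
  · have h0 : nx F k i hi B l hl q = (⟨i.1 + 1, by omega⟩, B \ F ⟨l.1, hl⟩, 0, 0, false) := by
      simp [nx, hqm]
    have hok : ok F k (nx F k i hi B l hl q) := by
      rw [h0]; right; exact ⟨rfl, live_succ F k hi hB ⟨l.1, hl⟩, Or.inl rfl⟩
    refine ⟨?_, ?_, ?_⟩
    · rw [cl, if_pos hok, h0]
      simp only [Bool.false_eq_true, if_false, Fin.val_zero, if_true]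
      rintro ⟨⟨x, a⟩, b⟩ ⟨h1, h2⟩
      simp only at h1 h2
      rcases h2 with ⟨h2, u, hu, hua⟩ | ⟨-, h3⟩
      · rw [Finset.mem_sdiff] at hu
        left
        refine ⟨h1, ?_, u, hu.1, ?_, hua⟩
        · simp only
          have := a.2
          omega
        · intro a' ha'
          have : a' = ⟨l.1, hl⟩ := Fin.ext ha'
          rw [this]; exact hu.2
      · omega
    · rw [h0]
      simp only [rk, Bool.false_eq_true, if_false, Fin.val_zero, if_true]
      have h1 : k - i.1 = (k - (i.1 + 1)) + 1 := by omega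
      rw [h1, Nat.add_mul]
      omega
    · rw [h0]
      rintro ⟨x, a⟩ h
      simp only [asked, Bool.false_eq_true, if_false, Fin.val_zero, if_true, Set.mem_setOf_eq] at h ⊢
      omega

end dp

theorem upper (n m k : ℕ) (F : Fin m → Finset (Fin n))
    (hF : ∀ t : Fin k → Fin m, ∃ u, ∀ i, u ∉ F (t i)) :
    ∃ s ≤ 2 * (k + 1) * (m + 1) ^ 2 * 2 ^ n, ∃ R : Refutation (Fin k × Fin m) (Standard F k) s, Regular R := by
  classical
  refine ⟨Fintype.card (Nd n m k), ?_, ?_⟩
  · simp only [Fintype.card_prod, Fintype.card_fin, Fintype.card_finset, Fintype.card_bool]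
    apply le_of_eq; ring
  have hroot : ok F k ((0, univ, 0, 0, false) : Nd n m k) := by
    right
    refine ⟨rfl, ?_, Or.inl rfl⟩
    intro t
    obtain ⟨u, hu⟩ := hF t
    exact ⟨u, mem_univ _, hu⟩
  refine of_fintype (cl F k) (ru F k) (rk k) ((0, univ, 0, 0, false) : Nd n m k) (asked k) ?_ ?_ ?_ ?_
  · rw [cl, if_pos hroot]
    simp only [Bool.false_eq_true, if_false, Fin.val_zero, if_true]
    ext z
    simp [cP]
  · intro v hv
    by_cases hok : ok F k v
    · obtain ⟨i, B, l, q, c⟩ := v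
      rw [cl, if_pos hok]
      rcases hok with ⟨hc, hi, hlq, hqm⟩ | ⟨hc, hB, hq⟩
      · simp only at hc hi hlq hqm
        subst hc
        refine ⟨_, Or.inr (Or.inr ⟨⟨i.1, hi⟩, ⟨l.1, by omega⟩, ⟨q.1, hqm⟩, ?_, rfl⟩), ?_⟩
        · intro h
          have := congrArg Fin.val h
          simp only at this
          omega
        · rintro z (rfl | rfl)
          · simp [cB]
          · simp [cB]
      · simp only at hc hB hq
        subst hc
        by_cases hi : i.1 < k
        · rw [ru, dif_pos ⟨Or.inr ⟨rfl, hB, hq⟩, rfl, hi⟩] at hv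
          simp only at hv
          by_cases hq0 : q.1 = 0
          · rw [dif_pos hq0] at hv
            by_cases hl : l.1 < m
            · rw [dif_pos hl] at hv; exact absurd hv (by simp)
            · refine ⟨_, Or.inr (Or.inl ⟨⟨i.1, hi⟩, rfl⟩), ?_⟩
              rintro ⟨⟨x, a⟩, b⟩ ⟨h1, h2⟩
              simp only at h1 h2
              simp only [Bool.false_eq_true, if_false, hq0, if_true, cP, Set.mem_setOf_eq]
              have := a.2
              refine ⟨h2, Or.inr ⟨by rw [h1], by omega⟩⟩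
          · rw [dif_neg hq0] at hv
            rcases hq with hq | hq
            · exact absurd hq hq0
            · rw [dif_pos hq.2] at hv; exact absurd hv (by simp)
        · have hik : i.1 = k := by have := i.2; omega
          have hq0 : q.1 = 0 := by
            rcases hq with hq | hq
            · exact hq
            · exact absurd hq.1 hi
          obtain ⟨u, hu, -⟩ := hB (fun j => absurd j.2 (by omega))
          refine ⟨_, Or.inl ⟨u, rfl⟩, ?_⟩
          rintro ⟨⟨x, a⟩, b⟩ ⟨h1, h2⟩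
          simp only at h1 h2
          simp only [Bool.false_eq_true, if_false, hq0, if_true, cP, Set.mem_setOf_eq]
          have := x.2
          exact ⟨h2, Or.inl ⟨by omega, u, hu, h1⟩⟩
    · rw [cl, if_neg hok]
      rcases Nat.eq_zero_or_pos k with hk | hk
      · subst hk
        obtain ⟨u, -⟩ := hF (fun j => absurd j.2 (by omega))
        exact ⟨_, Or.inl ⟨u, rfl⟩, Set.subset_univ _⟩
      · exact ⟨_, Or.inr (Or.inl ⟨⟨0, hk⟩, rfl⟩), Set.subset_univ _⟩
  · rintro ⟨i, B, l, q, c⟩ x p p' h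
    rw [ru] at h
    split_ifs at h with h1 h2 h3 h4
    · -- first phase
      obtain ⟨hok, hc, hi⟩ := h1
      simp only at hc hi h2 h3
      subst hc
      have hB : live F k i.1 B := by
        rcases hok with hok | hok
        · exact absurd hok.1 (by simp)
        · exact hok.2.1
      simp only [Option.some.injEq, Prod.mk.injEq] at h
      obtain ⟨rfl, rfl, rfl⟩ := h
      obtain ⟨n1, n2, -⟩ := nx_facts F k i hi B l h3 (l.1 + 1) (by omega) hB
      have hok' : ok F k ((i, B, ⟨l.1 + 1, by omega⟩, 0, false) : Nd n m k) :=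
        Or.inr ⟨rfl, hB, Or.inl rfl⟩
      have hclv : cl F k ((i, B, l, q, false) : Nd n m k) = cP F k i.1 B l.1 := by
        rw [cl, if_pos hok]; simp [h2]
      rw [hclv]
      refine ⟨?_, ?_, ?_, ?_⟩
      · rw [cl, if_pos hok']
        simp only [Bool.false_eq_true, if_false, Fin.val_zero, if_true]
        rintro ⟨⟨y, a⟩, b⟩ ⟨g1, g2⟩
        simp only at g1 g2
        rcases g2 with g2 | ⟨g2, g3⟩
        · exact Or.inr ⟨g1, Or.inl g2⟩
        · by_cases ha : a.1 = l.1
          · left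
            simp only [Prod.mk.injEq]
            exact ⟨⟨Fin.ext g2, Fin.ext ha⟩, g1⟩
          · exact Or.inr ⟨g1, Or.inr ⟨g2, by simp only; omega⟩⟩
      · refine n1.trans ?_
        rintro ⟨⟨y, a⟩, b⟩ (⟨g1, g2, u, hu, g3, g4⟩ | ⟨g1, g2, g3⟩)
        · simp only at g1 g2 g4
          right
          rcases g2 with g2 | ⟨g2, g5⟩
          · exact ⟨g1, Or.inl ⟨g2, u, hu, g4⟩⟩
          · refine ⟨g1, Or.inr ⟨g2, ?_⟩⟩
            simp only
            have : a.1 ≠ l.1 := fun h => g3 a h g4
            omega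
        · simp only at g1 g2 g3
          left
          simp only [Prod.mk.injEq]
          exact ⟨⟨Fin.ext g2, Fin.ext g3⟩, g1⟩
      · simp only [rk, Bool.false_eq_true, if_false, h2, Fin.val_zero, if_true]
        omega
      · refine lt_of_le_of_lt n2 ?_
        simp only [rk, Bool.false_eq_true, if_false, h2, if_true]
        omega
    · -- second phase
      obtain ⟨hok, hc, hi⟩ := h1
      simp only at hc hi h2 h4
      subst hc
      have hB : live F k i.1 B := by
        rcases hok with hok | hok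
        · exact absurd hok.1 (by simp)
        · exact hok.2.1
      simp only [Option.some.injEq, Prod.mk.injEq] at h
      obtain ⟨rfl, rfl, rfl⟩ := h
      obtain ⟨n1, n2, -⟩ := nx_facts F k i hi B l (by omega) (q.1 + 1) (by omega) hB
      have hok' : ok F k ((i, B, l, q, true) : Nd n m k) := Or.inl ⟨rfl, hi, h4.1, h4.2⟩
      have hclv : cl F k ((i, B, l, q, false) : Nd n m k) = cQ F k i.1 B l.1 q.1 := by
        rw [cl, if_pos hok]; simp [h2]
      rw [hclv]
      refine ⟨?_, ?_, ?_, ?_⟩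
      · refine n1.trans ?_
        rintro ⟨⟨y, a⟩, b⟩ (⟨g1, g2, u, hu, g3, g4⟩ | ⟨g1, g2, g3⟩)
        · simp only at g1 g2 g4
          by_cases ha : y.1 = i.1 ∧ a.1 = q.1
          · left
            simp only [Prod.mk.injEq]
            exact ⟨⟨Fin.ext ha.1, Fin.ext ha.2⟩, g1⟩
          · refine Or.inr (Or.inl ⟨g1, ?_, u, hu, g3, g4⟩)
            simp only
            omega
        · exact Or.inr (Or.inr ⟨g1, g2, g3⟩)
      · rw [cl, if_pos hok']
        simp only [if_true]
        rintro ⟨⟨y, a⟩, b⟩ ⟨g1, g2, g3⟩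
        simp only at g1 g2 g3
        rcases g3 with g3 | g3
        · exact Or.inr (Or.inr ⟨g1, g2, g3⟩)
        · left
          simp only [Prod.mk.injEq]
          exact ⟨⟨Fin.ext g2, Fin.ext g3⟩, g1⟩
      · refine lt_of_le_of_lt n2 ?_
        simp only [rk, Bool.false_eq_true, if_false, h2]
        omega
      · simp only [rk, if_true, Bool.false_eq_true, if_false, h2]
        omega
  · rintro ⟨i, B, l, q, c⟩ x p p' h
    rw [ru] at h
    split_ifs at h with h1 h2 h3 h4
    · obtain ⟨hok, hc, hi⟩ := h1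
      simp only at hc hi h2 h3
      subst hc
      have hB : live F k i.1 B := by
        rcases hok with hok | hok
        · exact absurd hok.1 (by simp)
        · exact hok.2.1
      simp only [Option.some.injEq, Prod.mk.injEq] at h
      obtain ⟨rfl, rfl, rfl⟩ := h
      obtain ⟨-, -, n3⟩ := nx_facts F k i hi B l h3 (l.1 + 1) (by omega) hB
      refine ⟨?_, ?_, ?_⟩
      · simp only [asked, Bool.false_eq_true, if_false, h2, if_true, Set.mem_setOf_eq]
        omega
      · rintro ⟨y, a⟩ hy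
        rw [Set.mem_insert_iff] at hy
        simp only [asked, Bool.false_eq_true, if_false, h2, Fin.val_zero, if_true, Set.mem_setOf_eq,
          Prod.mk.injEq, Fin.ext_iff] at hy ⊢
        omega
      · refine Set.Subset.trans ?_ n3
        rintro ⟨y, a⟩ hy
        rw [Set.mem_insert_iff] at hy
        simp only [asked, Bool.false_eq_true, if_false, h2, if_true, Set.mem_setOf_eq,
          Prod.mk.injEq, Fin.ext_iff] at hy ⊢
        omega
    · obtain ⟨hok, hc, hi⟩ := h1
      simp only at hc hi h2 h4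
      subst hc
      have hB : live F k i.1 B := by
        rcases hok with hok | hok
        · exact absurd hok.1 (by simp)
        · exact hok.2.1
      simp only [Option.some.injEq, Prod.mk.injEq] at h
      obtain ⟨rfl, rfl, rfl⟩ := h
      obtain ⟨-, -, n3⟩ := nx_facts F k i hi B l (by omega) (q.1 + 1) (by omega) hB
      refine ⟨?_, ?_, ?_⟩
      · simp only [asked, Bool.false_eq_true, if_false, h2, Set.mem_setOf_eq]
        omega
      · refine Set.Subset.trans ?_ n3
        rintro ⟨y, a⟩ hy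
        rw [Set.mem_insert_iff] at hy
        simp only [asked, Bool.false_eq_true, if_false, h2, Set.mem_setOf_eq,
          Prod.mk.injEq, Fin.ext_iff] at hy ⊢
        omega
      · intro y _
        simp [asked]

end Pool.Agent.Lib.MP_8fffab_lc_RR
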