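import Pool.Agent.Lib.MP_8fffab_lc_RR.C2
import Pool.Agent.Lib.MP_8fffab_lc_RR.N1
import Pool.Agent.Lib.MP_8fffab_lc_RR.U1

/-!
Assembly.
-/

namespace Pool.Agent.Lib.MP_8fffab_lc_RR

theorem lower (b : ℝ) (C : ℕ) (hb0 : 0 ≤ b) (hb : b < 2) :
    ∃ N : ℕ, ∀ h r : ℕ, N ≤ h → N ≤ r → ∀ (s : ℕ)
      (R : Refutation (Fin (2 * r) × {A : Finset (Fin (2 * r * h + 1)) // A.card = h})
        (Liberal (fun A => A.1) (2 * r)) s), HalfRegular R →
      b ^ (2 * r * h + 1) * (((2 * r * h + 1).choose h * (2 * r * h + 1) : ℕ) : ℝ) ^ C < s := by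
  obtain ⟨e, N, he, he1, hN⟩ := numeric b C hb0 hb
  obtain ⟨h0, hh0⟩ := main_ineq e he he1
  refine ⟨max (max N h0) 2, fun h r hh hr s R hR => ?_⟩
  refine hN h r s (by omega) (by omega) ?_
  exact hh0 (Fin (2 * r * h + 1)) h s r (by omega) (by omega) (by simp) R hR

end Pool.Agent.Lib.MP_8fffab_lc_RR
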