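import Pool.Agent.Lib.MP_8fffab_lc_RR.Base

/-!
Row M1. RECIPE: suppose `u ∈ reach R (nodeAt R a n)`: there are `w L` with `Path R (nodeAt R a n) w L`, `R.rule w = none`
and `cov .. ⊆ clause w`. By `path_trans (path_trace R a n)` there is a path from the root to `w` with answers
`L ++ trace R a n`. The literal `((i,c), true)` is in `cov` (as `u ∈ c.1`), so by `path_lit` the answer `((i,c), false)` is in
`L ++ trace R a n`. Not in `trace R a n` (`trace_val`: two values of `a (i,c)`), so in `L`. Show by induction on the path
`Path R v w L`: if `(x,false) ∈ L` and `Path R R.root v L0`, then there are `w' L1` with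
`Path R R.root w' ((x,false) :: (L1 ++ L0))` (a prefix of the path); then `hR` gives `(x,true) ∉ L1 ++ L0`, but
`(x,true) ∈ trace R a n = L0`. About 40 lines.
-/

namespace Pool.Agent.Lib.MP_8fffab_lc_RR

open Finset

private theorem prefix_path {X : Type} {Ax : Set (Set (X × Bool))} {s : ℕ} {R : Refutation X Ax s}
    {v w : Fin s} {L L0 : List (X × Bool)} (h0 : Path R R.root v L0) (hp : Path R v w L) {x : X}
    (hx : (x, false) ∈ L) : ∃ w' L1, Path R R.root w' ((x, false) :: (L1 ++ L0)) := by
  induction hp with
  | nil => simp at hx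
  | @no w L y p q hp hr ih =>
    rcases List.mem_cons.mp hx with h | h
    · have hy : x = y := (Prod.mk.inj h).1
      subst hy
      exact ⟨p, L, Path.no (path_trans h0 hp) hr⟩
    · exact ih h
  | @yes w L y p q hp hr ih =>
    rcases List.mem_cons.mp hx with h | h
    · exact absurd (Prod.mk.inj h).2 (by decide)
    · exact ih h

variable {α : Type} [Fintype α] [DecidableEq α] {k h s : ℕ}

theorem mixing (R : Ref α h k s) (hR : HalfRegular R) (a : Fin k × HSet α h → Bool) (n : ℕ)
    {i : Fin k} {c : HSet α h} (hc : ((i, c), true) ∈ trace R a n) {u : α} (hu : u ∈ c.1) :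
    u ∉ reach R (nodeAt R a n) := by
  classical
  intro hmem
  unfold reach at hmem
  rw [Finset.mem_filter] at hmem
  obtain ⟨-, w, L, hp, -, hcov⟩ := hmem
  have hlit : (((i, c), true) : (Fin k × HSet α h) × Bool) ∈ R.clause w := hcov ⟨hu, rfl⟩
  have hL := path_lit (path_trans (path_trace R a n) hp) _ hlit
  have hL' : (((i, c), false) : (Fin k × HSet α h) × Bool) ∈ L := by
    rcases List.mem_append.mp hL with h | h
    · exact h
    · have h1 := trace_val h
      have h2 := trace_val hc
      rw [h2] at h1
      exact absurd h1 (by simp)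
  obtain ⟨w', L1, hpre⟩ := prefix_path (path_trace R a n) hp hL'
  exact hR _ _ _ hpre (List.mem_append.mpr (Or.inr hc))

end Pool.Agent.Lib.MP_8fffab_lc_RR
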