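import Pool.Agent.Lib.MP_8fffab_lc_RR.Base

/-!
Row M2. RECIPE (`star`): put `n := tau R r (sil t i j)`. The assignment `val t'` agrees with `sil t i j` on all variables asked up to
time `n`: for `((l,c),b) ∈ trace R (sil t i j) n`, `b = sil t i j (l,c)` (`trace_val`); if `l ≠ i, j` both are `decide (t l = c)`
(`ht'`); if `l = i` (or `j`) then `b = false`, and `val t' (i,c) = false` since `c = t' i` is excluded by `hi`. So by `agree`
(with `a := sil t i j`, `a' := val t'`) `nodeAt R (val t') n` is the same node. `exists_leaf` and `nodeAt_leaf` give `m ≥ n` with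
`R.rule (nodeAt R (val t') m) = none`. `R.leaf_ok` gives `C ∈ Liberal`, `C ⊆ clause`. By `run_false` every literal of `C` is
false under `val t'`, so the second alternative (`Holds t' C`) is impossible, and `C = cov u`: for every `l`, `u ∉ (t' l).1` (else the
literal `((l, t' l), true)` of `cov u` would be true). `u ∈ reach ..` by `path_run`. About 60 lines.
-/

namespace Pool.Agent.Lib.MP_8fffab_lc_RR

open Finset

variable {α : Type} [Fintype α] [DecidableEq α] {k h s : ℕ}

theorem star (R : Ref α h k s) (r : ℕ) (t t' : Fin k → HSet α h) (i j : Fin k)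
    (ht' : ∀ l, l ≠ i → l ≠ j → t' l = t l)
    (hi : ((i, t' i), false) ∉ trace R (sil t i j) (tau R r (sil t i j)))
    (hj : ((j, t' j), false) ∉ trace R (sil t i j) (tau R r (sil t i j))) :
    ∃ u ∈ reach R (nodeAt R (sil t i j) (tau R r (sil t i j))), ∀ l, u ∉ (t' l).1 := by
  classical
  set n : ℕ := tau R r (sil t i j) with hn
  have hag : ∀ x b, (x, b) ∈ trace R (sil t i j) n → val t' x = b := by
    rintro ⟨l, c⟩ b hx
    have hb := trace_val hx
    by_cases hli : l = i
    · subst hli
      have hb' : b = false := by
        rw [← hb]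
        simp [sil]
      subst hb'
      by_cases hc : t' l = c
      · exfalso
        apply hi
        rw [hc]
        exact hx
      · simp [val, hc]
    · by_cases hlj : l = j
      · subst hlj
        have hb' : b = false := by
          rw [← hb]
          simp [sil]
        subst hb'
        by_cases hc : t' l = c
        · exfalso
          apply hj
          rw [hc]
          exact hx
        · simp [val, hc]
      · rw [← hb]
        simp [val, sil, hli, hlj, ht' l hli hlj]
  have hnode : nodeAt R (val t') n = nodeAt R (sil t i j) n := (agree hag n le_rfl).1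
  obtain ⟨m, hm⟩ := exists_leaf R (val t')
  obtain ⟨h1, -⟩ := nodeAt_leaf (R := R) (a := val t') (le_max_right n m) hm
  have hleaf : R.rule (nodeAt R (val t') (max n m)) = none := by rw [h1]; exact hm
  obtain ⟨L, hL⟩ := path_run R (val t') (le_max_left n m)
  obtain ⟨C, hC, hsub⟩ := R.leaf_ok _ hleaf
  rcases hC with ⟨u, rfl⟩ | hC
  · refine ⟨u, ?_, ?_⟩
    · unfold reach
      rw [mem_filter]
      refine ⟨mem_univ _, nodeAt R (val t') (max n m), L, ?_, hleaf, hsub⟩
      rw [← hnode]
      exact hL
    · intro l hul
      have hlit : (((l, t' l), true) : (Fin k × HSet α h) × Bool) ∈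
          cov (fun A : HSet α h => A.1) k u := ⟨hul, rfl⟩
      have := run_false (hsub hlit)
      simp [val] at this
  · exfalso
    obtain ⟨⟨⟨l, c⟩, b⟩, hl, hiff⟩ := hC t'
    have hf := run_false (hsub hl)
    cases b
    · simp only [val, Bool.not_false, decide_eq_true_eq] at hf
      have := hiff.1 hf
      exact absurd this (by simp)
    · simp only [val, Bool.not_true, decide_eq_false_iff_not] at hf
      exact hf (hiff.2 rfl)

end Pool.Agent.Lib.MP_8fffab_lc_RR
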