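import Pool.Agent.Lib.MP_8fffab_lc_RR.Defs2

/-!
Row T1. RECIPE: `w := W.card`, `t j := number of a ∈ powersetCard j W with T a` (filter, classical). Double counting: for `j < w`,
`(bnd W T j).card + (j+1) * t (j+1) = (w - j) * t j`: the pairs `(a,u)` with `a ∈ powersetCard j W`, `T a`, `u ∈ W \ a` number `(w-j) * t j`; those with
`T (insert u a)` correspond to the pairs `(a', u)`, `a' ∈ powersetCard (j+1) W`, `T a'`, `u ∈ a'` (as `T` passes to subsets `a = a'.erase u`), they number
`(j+1) * t (j+1)`. With `q j := t j / C(w,j)` and `(w-j) C(w,j) = (j+1) C(w,j+1)` (`Nat.choose_succ_right_eq`) the summand is `q j - q (j+1)`;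
the sum telescopes (`Finset.sum_range_sub'`) to `q 0 - q w ≤ q 0 ≤ 1` (`t 0 ≤ 1`). About 80 lines.
-/

namespace Pool.Agent.Lib.MP_8fffab_lc_RR

open Finset

variable {α : Type} [Fintype α] [DecidableEq α] {k h s : ℕ}

open Classical in
private theorem count_bnd (W : Finset α) (T : Finset α → Prop)
    (hT : ∀ a a', a ⊆ a' → T a' → T a) (j : ℕ) :
    (bnd W T j).card + (j + 1) * ((powersetCard (j + 1) W).filter T).card =
      (W.card - j) * ((powersetCard j W).filter T).card := by
  -- all the pairs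
  have h1 : (((powersetCard j W) ×ˢ W).filter (fun p => p.2 ∉ p.1 ∧ T p.1)).card =
      (W.card - j) * ((powersetCard j W).filter T).card := by
    rw [Finset.card_filter, Finset.sum_product, Finset.card_filter, Finset.mul_sum]
    refine Finset.sum_congr rfl fun a ha => ?_
    rw [Finset.mem_powersetCard] at ha
    rw [← Finset.card_filter]
    by_cases hTa : T a
    · rw [if_pos hTa, mul_one]
      have : W.filter (fun u => u ∉ a ∧ T a) = W \ a := by
        ext u
        simp [hTa]
      rw [this, Finset.card_sdiff_of_subset ha.1, ha.2]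
    · rw [if_neg hTa, mul_zero, Finset.card_eq_zero, Finset.filter_eq_empty_iff]
      rintro u _ ⟨_, h⟩
      exact hTa h
  have h2 : (((powersetCard (j + 1) W) ×ˢ W).filter (fun p => p.2 ∈ p.1 ∧ T p.1)).card =
      (j + 1) * ((powersetCard (j + 1) W).filter T).card := by
    rw [Finset.card_filter, Finset.sum_product, Finset.card_filter, Finset.mul_sum]
    refine Finset.sum_congr rfl fun a ha => ?_
    rw [Finset.mem_powersetCard] at ha
    rw [← Finset.card_filter]
    by_cases hTa : T a
    · rw [if_pos hTa, mul_one]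
      have : W.filter (fun u => u ∈ a ∧ T a) = a := by
        ext u
        simp only [Finset.mem_filter, hTa, and_true]
        exact ⟨fun h => h.2, fun h => ⟨ha.1 h, h⟩⟩
      rw [this, ha.2]
    · rw [if_neg hTa, mul_zero, Finset.card_eq_zero, Finset.filter_eq_empty_iff]
      rintro u _ ⟨_, h⟩
      exact hTa h
  have h3 : (((powersetCard j W) ×ˢ W).filter
        (fun p => (p.2 ∉ p.1 ∧ T p.1) ∧ T (insert p.2 p.1))).card =
      (((powersetCard (j + 1) W) ×ˢ W).filter (fun p => p.2 ∈ p.1 ∧ T p.1)).card := by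
    refine Finset.card_nbij' (fun p => (insert p.2 p.1, p.2)) (fun p => (p.1.erase p.2, p.2))
      ?_ ?_ ?_ ?_
    · rintro ⟨a, u⟩ hp
      simp only [Finset.coe_filter, Finset.mem_product, Finset.mem_powersetCard,
        Set.mem_ofPred_eq] at hp ⊢
      obtain ⟨⟨⟨haW, hac⟩, hu⟩, ⟨hua, _⟩, hTi⟩ := hp
      exact ⟨⟨⟨Finset.insert_subset hu haW, by rw [Finset.card_insert_of_notMem hua, hac]⟩, hu⟩,
        Finset.mem_insert_self _ _, hTi⟩
    · rintro ⟨a, u⟩ hp
      simp only [Finset.coe_filter, Finset.mem_product, Finset.mem_powersetCard,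
        Set.mem_ofPred_eq] at hp ⊢
      obtain ⟨⟨⟨haW, hac⟩, hu⟩, hua, hTa⟩ := hp
      refine ⟨⟨⟨(Finset.erase_subset _ _).trans haW, by
        rw [Finset.card_erase_of_mem hua, hac]; rfl⟩, hu⟩,
        ⟨Finset.notMem_erase _ _, hT _ _ (Finset.erase_subset _ _) hTa⟩, ?_⟩
      rw [Finset.insert_erase hua]
      exact hTa
    · rintro ⟨a, u⟩ hp
      simp only [Finset.coe_filter, Finset.mem_product, Finset.mem_powersetCard,
        Set.mem_ofPred_eq] at hp
      obtain ⟨_, ⟨hua, _⟩, _⟩ := hp
      simp only [Finset.erase_insert hua]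
    · rintro ⟨a, u⟩ hp
      simp only [Finset.coe_filter, Finset.mem_product, Finset.mem_powersetCard,
        Set.mem_ofPred_eq] at hp
      obtain ⟨_, hua, _⟩ := hp
      simp only [Finset.insert_erase hua]
  have h4 := Finset.card_filter_add_card_filter_not
    (s := ((powersetCard j W) ×ˢ W).filter (fun p => p.2 ∉ p.1 ∧ T p.1))
    (fun p => T (insert p.2 p.1))
  rw [Finset.filter_filter, Finset.filter_filter] at h4
  have h5 : ((powersetCard j W) ×ˢ W).filter
      (fun p => (p.2 ∉ p.1 ∧ T p.1) ∧ ¬ T (insert p.2 p.1)) = bnd W T j := by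
    unfold bnd
    ext p
    simp only [Finset.mem_filter, and_assoc]
  rw [h5, h3, h2, h1] at h4
  omega

theorem boundary_sum (W : Finset α) (T : Finset α → Prop) (hT : ∀ a a', a ⊆ a' → T a' → T a) :
    ∑ j ∈ range W.card, ((bnd W T j).card : ℝ) / (((W.card : ℝ) - j) * (W.card.choose j : ℝ)) ≤ 1 := by
  classical
  set w := W.card with hw
  set t : ℕ → ℕ := fun j => ((powersetCard j W).filter T).card with ht
  set q : ℕ → ℝ := fun j => (t j : ℝ) / (w.choose j : ℝ) with hq
  have hterm : ∀ j ∈ range w, ((bnd W T j).card : ℝ) / (((w : ℝ) - j) * (w.choose j : ℝ)) =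
      q j - q (j + 1) := by
    intro j hj
    rw [Finset.mem_range] at hj
    have hc := count_bnd W T hT j
    have hc' : ((bnd W T j).card : ℝ) + (j + 1) * (t (j + 1) : ℝ) = ((w : ℝ) - j) * (t j : ℝ) := by
      have h1 : (((bnd W T j).card + (j + 1) * t (j + 1) : ℕ) : ℝ) = (((w - j) * t j : ℕ) : ℝ) := by
        exact_mod_cast hc
      push_cast [Nat.cast_sub hj.le] at h1
      exact h1
    have hch : (w.choose (j + 1) : ℝ) * (j + 1) = (w.choose j : ℝ) * ((w : ℝ) - j) := by
      have h1 : ((w.choose (j + 1) * (j + 1) : ℕ) : ℝ) = ((w.choose j * (w - j) : ℕ) : ℝ) := by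
        exact_mod_cast Nat.choose_succ_right_eq w j
      push_cast [Nat.cast_sub hj.le] at h1
      exact h1
    have h1 : (0 : ℝ) < (w : ℝ) - j := by
      have : (j : ℝ) < w := by exact_mod_cast hj
      linarith
    have h2 : (0 : ℝ) < (w.choose j : ℝ) := by exact_mod_cast Nat.choose_pos hj.le
    have h3 : (0 : ℝ) < (w.choose (j + 1) : ℝ) := by exact_mod_cast Nat.choose_pos hj
    have h4 : (0 : ℝ) < (j : ℝ) + 1 := by positivity
    have h5 : ((bnd W T j).card : ℝ) = ((w : ℝ) - j) * (t j : ℝ) - (j + 1) * (t (j + 1) : ℝ) := by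
      linarith
    show ((bnd W T j).card : ℝ) / (((w : ℝ) - j) * (w.choose j : ℝ)) =
      (t j : ℝ) / (w.choose j : ℝ) - (t (j + 1) : ℝ) / (w.choose (j + 1) : ℝ)
    rw [h5, sub_div]
    congr 1
    · rw [mul_div_mul_left _ _ h1.ne']
    · rw [mul_comm ((w : ℝ) - j), ← hch, mul_comm (w.choose (j + 1) : ℝ), mul_div_mul_left _ _ h4.ne']
  rw [Finset.sum_congr rfl hterm, Finset.sum_range_sub' q w]
  have h0 : q 0 ≤ 1 := by
    show (t 0 : ℝ) / (w.choose 0 : ℝ) ≤ 1
    rw [Nat.choose_zero_right, Nat.cast_one, div_one]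
    have : t 0 ≤ 1 := by
      show ((powersetCard 0 W).filter T).card ≤ 1
      refine (Finset.card_filter_le _ _).trans ?_
      rw [Finset.powersetCard_zero, Finset.card_singleton]
    exact_mod_cast this
  have h1 : 0 ≤ q w := by
    show 0 ≤ (t w : ℝ) / (w.choose w : ℝ)
    positivity
  linarith

end Pool.Agent.Lib.MP_8fffab_lc_RR
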