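import Pool.Agent.Lib.MP_8fffab_lc_RR.Defs2

/-!
Row T2: counting the pairs level by level.
-/

namespace Pool.Agent.Lib.MP_8fffab_lc_RR

open Finset

variable {α : Type} [Fintype α] [DecidableEq α] {k h s : ℕ}

theorem pairs_card (V W : Finset α) (hW : W ⊆ V) (T : Finset α → Prop) (h : ℕ) :
    (pairs V W T h).card =
      ∑ j ∈ range (h + 1), (bnd W T j).card * ((V \ W).card.choose (h - j)) := by
  classical
  have hmem : ∀ p : Finset α × α, p ∈ pairs V W T h ↔
      ((p.1 ⊆ V ∧ p.1.card = h) ∧ p.2 ∈ V) ∧ p.2 ∉ p.1 ∧ T (p.1 ∩ W) ∧ ¬ T (insert p.2 p.1 ∩ W) := by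
    intro p
    simp only [pairs, mem_filter, mem_product, mem_powersetCard]
  have hbnd : ∀ (j : ℕ) (p : Finset α × α), p ∈ bnd W T j ↔
      ((p.1 ⊆ W ∧ p.1.card = j) ∧ p.2 ∈ W) ∧ p.2 ∉ p.1 ∧ T p.1 ∧ ¬ T (insert p.2 p.1) := by
    intro j p
    simp only [bnd, mem_filter, mem_product, mem_powersetCard]
  have huW : ∀ p ∈ pairs V W T h, p.2 ∈ W := by
    intro p hp
    obtain ⟨-, -, h1, h2⟩ := (hmem p).mp hp
    by_contra hu
    rw [insert_inter_of_notMem hu] at h2
    exact h2 h1
  rw [Finset.card_eq_sum_card_fiberwise (f := fun p : Finset α × α => (p.1 ∩ W).card)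
    (t := range (h + 1))]
  · refine Finset.sum_congr rfl fun j hj => ?_
    rw [← Finset.card_powersetCard, ← Finset.card_product]
    refine Finset.card_bij' (fun p _ => ((p.1 ∩ W, p.2), p.1 \ W))
      (fun q _ => (q.1.1 ∪ q.2, q.1.2)) ?_ ?_ ?_ ?_
    · intro p hp
      obtain ⟨hp, hj'⟩ := mem_filter.mp hp
      have hu := huW p hp
      obtain ⟨⟨⟨h1, h2⟩, h3⟩, h4, h5, h6⟩ := (hmem p).mp hp
      rw [mem_product, hbnd, mem_powersetCard]
      refine ⟨⟨⟨⟨inter_subset_right, hj'⟩, hu⟩, fun hh => h4 (mem_inter.mp hh).1, h5, ?_⟩,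
        sdiff_subset_sdiff h1 (Subset.refl _), ?_⟩
      · rw [insert_inter_of_mem hu] at h6
        exact h6
      · have := card_sdiff_add_card_inter p.1 W
        simp only at hj' ⊢
        omega
    · intro q hq
      obtain ⟨hq1, hq2⟩ := mem_product.mp hq
      obtain ⟨⟨⟨h1, h2⟩, h3⟩, h4, h5, h6⟩ := (hbnd j _).mp hq1
      obtain ⟨h7, h8⟩ := mem_powersetCard.mp hq2
      have hd : Disjoint q.1.1 q.2 :=
        disjoint_of_subset_left h1 (disjoint_of_subset_right h7 disjoint_sdiff)
      have hi : (q.1.1 ∪ q.2) ∩ W = q.1.1 := by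
        rw [union_inter_distrib_right, inter_eq_left.mpr h1]
        have : q.2 ∩ W = ∅ := by
          rw [← disjoint_iff_inter_eq_empty]
          exact disjoint_of_subset_left h7 sdiff_disjoint
        rw [this, union_empty]
      have hnu : q.1.2 ∉ q.1.1 ∪ q.2 := by
        rw [mem_union]
        rintro (hh | hh)
        · exact h4 hh
        · exact (mem_sdiff.mp (h7 hh)).2 h3
      rw [mem_filter, hmem]
      refine ⟨⟨⟨⟨union_subset (h1.trans hW) (h7.trans sdiff_subset), ?_⟩, hW h3⟩, hnu, ?_, ?_⟩, ?_⟩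
      · rw [card_union_of_disjoint hd, h2, h8]
        have := mem_range.mp hj
        omega
      · simp only
        rw [hi]
        exact h5
      · simp only
        rw [insert_inter_of_mem h3, hi]
        exact h6
      · simp only
        rw [hi]
        exact h2
    · intro p hp
      simp only
      rw [union_comm, sdiff_union_inter]
    · intro q hq
      obtain ⟨hq1, hq2⟩ := mem_product.mp hq
      obtain ⟨⟨⟨h1, h2⟩, h3⟩, h4, h5, h6⟩ := (hbnd j _).mp hq1
      obtain ⟨h7, h8⟩ := mem_powersetCard.mp hq2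
      have hd' : Disjoint q.2 W := disjoint_of_subset_left h7 sdiff_disjoint
      have hi : (q.1.1 ∪ q.2) ∩ W = q.1.1 := by
        rw [union_inter_distrib_right, inter_eq_left.mpr h1, disjoint_iff_inter_eq_empty.mp hd',
          union_empty]
      have hi' : (q.1.1 ∪ q.2) \ W = q.2 := by
        rw [union_sdiff_distrib, sdiff_eq_empty_iff_subset.mpr h1, empty_union,
          sdiff_eq_self_of_disjoint hd']
      simp only
      rw [hi, hi']
  · intro p hp
    obtain ⟨⟨⟨h1, h2⟩, h3⟩, h4, h5, h6⟩ := (hmem p).mp hp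
    simp only [coe_range, Set.mem_Iio]
    have := card_le_card (inter_subset_left : p.1 ∩ W ⊆ p.1)
    omega

end Pool.Agent.Lib.MP_8fffab_lc_RR
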