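import Mathlib

/-!
Row T3 (Mathlib only). RECIPES: by induction on `m` with `Nat.succ_mul_centralBinom_succ : (n+1) * centralBinom (n+1) = 2 * (2n+1) * centralBinom n`:
`centralBinom m ^2 * (2m+1) ≤ 16^m` and `16^m ≤ centralBinom m ^2 * (4m)` for `m ≥ 1`. `choose_sq_le`: `N = 2m`: `C(N,j) ≤ centralBinom m` (`Nat.choose_le_centralBinom`);
`N = 2m+1`: `C(2m+1,j) ≤ C(2m+1,m)` (`Nat.choose_le_middle`) and `2 * C(2m+1,m) = centralBinom (m+1)`. `le_choose_sq`: `2 * C(2h+1,h) = centralBinom (h+1)`. 50 lines.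
-/

namespace Pool.Agent.Lib.MP_8fffab_lc_RR

open Finset

private theorem cb_up (n : ℕ) : n.centralBinom ^ 2 * (2 * n + 1) ≤ 16 ^ n := by
  induction n with
  | zero => simp
  | succ n ih =>
    have h := Nat.succ_mul_centralBinom_succ n
    have hpos : 0 < (n + 1) ^ 2 := by positivity
    refine Nat.le_of_mul_le_mul_left ?_ hpos
    calc (n + 1) ^ 2 * ((n + 1).centralBinom ^ 2 * (2 * (n + 1) + 1))
        = ((n + 1) * (n + 1).centralBinom) ^ 2 * (2 * n + 3) := by ring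
      _ = (2 * (2 * n + 1) * n.centralBinom) ^ 2 * (2 * n + 3) := by rw [h]
      _ = (n.centralBinom ^ 2 * (2 * n + 1)) * (4 * ((2 * n + 1) * (2 * n + 3))) := by ring
      _ ≤ 16 ^ n * (4 * (4 * (n + 1) ^ 2)) := by
          refine Nat.mul_le_mul ih (Nat.mul_le_mul_left _ ?_)
          nlinarith
      _ = (n + 1) ^ 2 * 16 ^ (n + 1) := by ring

private theorem cb_lo (n : ℕ) :
    16 ^ (n + 1) ≤ (n + 1).centralBinom ^ 2 * (4 * (n + 1)) := by
  induction n with
  | zero => simp [Nat.centralBinom]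
  | succ n ih =>
    have h := Nat.succ_mul_centralBinom_succ (n + 1)
    have hpos : 0 < (n + 2) ^ 2 := by positivity
    refine Nat.le_of_mul_le_mul_left ?_ hpos
    calc (n + 2) ^ 2 * 16 ^ (n + 1 + 1)
        = 16 ^ (n + 1) * (16 * (n + 2) ^ 2) := by ring
      _ ≤ ((n + 1).centralBinom ^ 2 * (4 * (n + 1))) * (16 * (n + 2) ^ 2) :=
          Nat.mul_le_mul_right _ ih
      _ = (n + 1).centralBinom ^ 2 * (16 * (n + 2) * (4 * (n + 1) * (n + 2))) := by ring
      _ ≤ (n + 1).centralBinom ^ 2 * (16 * (n + 2) * (2 * n + 3) ^ 2) := by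
          refine Nat.mul_le_mul_left _ (Nat.mul_le_mul_left _ ?_)
          nlinarith
      _ = (2 * (2 * (n + 1) + 1) * (n + 1).centralBinom) ^ 2 * (4 * (n + 2)) := by ring
      _ = ((n + 1 + 1) * (n + 1 + 1).centralBinom) ^ 2 * (4 * (n + 2)) := by rw [h]
      _ = (n + 2) ^ 2 * ((n + 1 + 1).centralBinom ^ 2 * (4 * (n + 1 + 1))) := by ring

private theorem two_mid (h : ℕ) : 2 * (2 * h + 1).choose h = (h + 1).centralBinom := by
  have e1 : (2 * (h + 1)).choose (h + 1) = (2 * h + 1).choose h + (2 * h + 1).choose (h + 1) := by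
    rw [show 2 * (h + 1) = (2 * h + 1) + 1 by ring, Nat.choose_succ_succ']
  have e2 : (2 * h + 1).choose (h + 1) = (2 * h + 1).choose h := by
    rw [← Nat.choose_symm (show h ≤ 2 * h + 1 by omega)]
    congr 1
    omega
  rw [Nat.centralBinom, e1, e2]
  ring

theorem choose_sq_le (N j : ℕ) : (N.choose j) ^ 2 * (N + 1) ≤ 4 ^ N := by
  obtain ⟨m, hm | hm⟩ := Nat.even_or_odd' N
  · subst hm
    have h1 : (2 * m).choose j ≤ m.centralBinom := Nat.choose_le_centralBinom j m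
    calc ((2 * m).choose j) ^ 2 * (2 * m + 1)
        ≤ m.centralBinom ^ 2 * (2 * m + 1) :=
          Nat.mul_le_mul_right _ (Nat.pow_le_pow_left h1 2)
      _ ≤ 16 ^ m := cb_up m
      _ = 4 ^ (2 * m) := by rw [pow_mul]; norm_num
  · subst hm
    have h1 : (2 * m + 1).choose j ≤ (2 * m + 1).choose m := by
      have := Nat.choose_le_middle j (2 * m + 1)
      rwa [show (2 * m + 1) / 2 = m by omega] at this
    have h2 := cb_up (m + 1)
    rw [← two_mid m] at h2
    have h3 : 4 * (((2 * m + 1).choose m) ^ 2 * (2 * m + 1 + 1)) ≤ 4 * 4 ^ (2 * m + 1) := by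
      calc 4 * (((2 * m + 1).choose m) ^ 2 * (2 * m + 1 + 1))
          = (2 * (2 * m + 1).choose m) ^ 2 * (2 * m + 2) := by ring
        _ ≤ (2 * (2 * m + 1).choose m) ^ 2 * (2 * (m + 1) + 1) :=
            Nat.mul_le_mul_left _ (by omega)
        _ ≤ 16 ^ (m + 1) := h2
        _ = 4 * 4 ^ (2 * m + 1) := by
            rw [show (16 : ℕ) = 4 ^ 2 by norm_num, ← pow_mul]
            rw [show 2 * (m + 1) = (2 * m + 1) + 1 by ring, pow_succ]
            ring
    have h4 : ((2 * m + 1).choose m) ^ 2 * (2 * m + 1 + 1) ≤ 4 ^ (2 * m + 1) := by omega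
    exact (Nat.mul_le_mul_right _ (Nat.pow_le_pow_left h1 2)).trans h4

theorem le_choose_sq (h : ℕ) : 4 ^ (2 * h + 1) ≤ ((2 * h + 1).choose h) ^ 2 * (4 * (h + 1)) := by
  have h2 := cb_lo h
  rw [← two_mid h] at h2
  have h3 : 4 * 4 ^ (2 * h + 1) ≤ 4 * (((2 * h + 1).choose h) ^ 2 * (4 * (h + 1))) := by
    calc 4 * 4 ^ (2 * h + 1) = 16 ^ (h + 1) := by
          rw [show (16 : ℕ) = 4 ^ 2 by norm_num, ← pow_mul]
          rw [show 2 * (h + 1) = (2 * h + 1) + 1 by ring, pow_succ]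
          ring
      _ ≤ (2 * (2 * h + 1).choose h) ^ 2 * (4 * (h + 1)) := h2
      _ = 4 * (((2 * h + 1).choose h) ^ 2 * (4 * (h + 1))) := by ring
  omega

end Pool.Agent.Lib.MP_8fffab_lc_RR
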