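import Pool.Agent.Lib.MP_8fffab_lc_RR.T1
import Pool.Agent.Lib.MP_8fffab_lc_RR.T2
import Pool.Agent.Lib.MP_8fffab_lc_RR.T3

/-!
Row T4 (static lemma). RECIPE: `w := W.card`, `b := (V \ W).card`, `w + b = 2h+1`. By `pairs_card` and `boundary_sum` the number is
`∑_j β_j C(b,h-j) ≤ K ∑_{j<w} β_j/((w-j)C(w,j)) ≤ K` where `(w-j) C(w,j) C(b,h-j) ≤ K` for all `j ≤ min(h, w-1)` (`β_j = 0` for `j ≥ w`). `K := x (h+1) C(2h+1,h)` works if
`h ≥ h0 := 4/(x^3 δ)`: if `C(b,h-j) = 0` trivial; otherwise `h - j ≤ b`, so `w - j ≤ h+1`. Case `w ≤ x(h+1)`: `(w-j) ≤ x(h+1)` and `C(w,j) C(b,h-j) ≤ C(w+b,h)`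
(Vandermonde, `Nat.add_choose_eq`). Case `w > x(h+1)`: by `choose_sq_le`, `le_choose_sq`: `(C(w,j) C(b,h-j))^2 (w+1)(b+1) ≤ 4^(2h+1) ≤ C(2h+1,h)^2 4(h+1)`, and `(w+1)(b+1) ≥ x(h+1) δh`,
so `C(w,j) C(b,h-j) ≤ x C(2h+1,h)` as `4/(x δ h) ≤ x^2`. About 90 lines.
-/

namespace Pool.Agent.Lib.MP_8fffab_lc_RR

open Finset

private theorem vdm (w b h j : ℕ) (hj : j ≤ h) :
    w.choose j * b.choose (h - j) ≤ (w + b).choose h := by
  rw [Nat.add_choose_eq]
  exact single_le_sum (f := fun p : ℕ × ℕ => w.choose p.1 * b.choose p.2) (fun _ _ => Nat.zero_le _)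
    (mem_antidiagonal.2 (show (j, h - j).1 + (j, h - j).2 = h by simp; omega))

private theorem key {x δ : ℝ} (hx : 0 < x) (hδ : 0 < δ) {h w b j : ℕ} (hh : 4 / (x ^ 3 * δ) ≤ h)
    (hwb : w + b = 2 * h + 1) (hb : δ * h ≤ b) (hjh : j ≤ h) (hjw : j < w) :
    ((w : ℝ) - j) * (w.choose j : ℝ) * (b.choose (h - j) : ℝ) ≤
      x * ((h + 1) * ((2 * h + 1).choose h : ℝ)) := by
  have hK : 0 ≤ x * (((h : ℝ) + 1) * ((2 * h + 1).choose h : ℝ)) := by positivity
  rcases Nat.lt_or_ge b (h - j) with h1 | h1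
  · rw [Nat.choose_eq_zero_of_lt h1]
    simpa using hK
  have h2 : (w : ℝ) - j ≤ h + 1 := by
    have : w ≤ j + (h + 1) := by omega
    have h3 : (w : ℝ) ≤ j + (h + 1) := by exact_mod_cast this
    linarith
  have h0 : (0 : ℝ) ≤ (w : ℝ) - j := by
    have : (j : ℝ) ≤ w := by exact_mod_cast hjw.le
    linarith
  set P : ℝ := (w.choose j : ℝ) * (b.choose (h - j) : ℝ) with hP
  have hP0 : 0 ≤ P := by positivity
  set C : ℝ := ((2 * h + 1).choose h : ℝ) with hC
  have hC0 : 0 ≤ C := by positivity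
  rw [mul_assoc, ← hP]
  rcases le_or_gt (w : ℝ) (x * (h + 1)) with h3 | h3
  · have h4 : P ≤ C := by
      rw [hP, hC, ← hwb]
      exact_mod_cast vdm w b h j hjh
    have h5 : (w : ℝ) - j ≤ x * (h + 1) := by
      have : (0 : ℝ) ≤ j := by positivity
      linarith
    calc ((w : ℝ) - j) * P ≤ (x * (h + 1)) * C := mul_le_mul h5 h4 hP0 (by positivity)
      _ = x * ((h + 1) * C) := by ring
  · have hh0 : (0 : ℝ) < h := lt_of_lt_of_le (by positivity) hh
    have h4 : P ^ 2 * ((w + 1) * (b + 1)) ≤ C ^ 2 * (4 * (h + 1)) := by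
      have e1 : ((w.choose j : ℝ)) ^ 2 * (w + 1) ≤ 4 ^ w := by exact_mod_cast choose_sq_le w j
      have e2 : ((b.choose (h - j) : ℝ)) ^ 2 * (b + 1) ≤ 4 ^ b := by
        exact_mod_cast choose_sq_le b (h - j)
      have e3 : (4 : ℝ) ^ (2 * h + 1) ≤ C ^ 2 * (4 * (h + 1)) := by
        rw [hC]; exact_mod_cast le_choose_sq h
      calc P ^ 2 * ((w + 1) * (b + 1))
          = (((w.choose j : ℝ)) ^ 2 * (w + 1)) * (((b.choose (h - j) : ℝ)) ^ 2 * (b + 1)) := by
            rw [hP]; ring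
        _ ≤ 4 ^ w * 4 ^ b := mul_le_mul e1 e2 (by positivity) (by positivity)
        _ = 4 ^ (2 * h + 1) := by rw [← pow_add, hwb]
        _ ≤ _ := e3
    have h5 : x * (h + 1) * (δ * h) ≤ ((w : ℝ) + 1) * (b + 1) := by
      have e4 : x * (h + 1) ≤ (w : ℝ) + 1 := by linarith
      have e5 : δ * h ≤ (b : ℝ) + 1 := by linarith
      exact mul_le_mul e4 e5 (by positivity) (by positivity)
    have h6 : P ^ 2 * (x * (δ * h)) ≤ C ^ 2 * 4 := by
      have e6 : P ^ 2 * (x * (h + 1) * (δ * h)) ≤ C ^ 2 * (4 * (h + 1)) :=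
        le_trans (mul_le_mul_of_nonneg_left h5 (by positivity)) h4
      have e7 : (0 : ℝ) < (h : ℝ) + 1 := by linarith
      refine le_of_mul_le_mul_right ?_ e7
      calc P ^ 2 * (x * (δ * h)) * (h + 1) = P ^ 2 * (x * (h + 1) * (δ * h)) := by ring
        _ ≤ C ^ 2 * (4 * (h + 1)) := e6
        _ = C ^ 2 * 4 * (h + 1) := by ring
    have h7 : 4 ≤ x ^ 3 * δ * h := by
      have := (div_le_iff₀ (by positivity : (0 : ℝ) < x ^ 3 * δ)).1 hh
      linarith
    have h8 : P ^ 2 ≤ (x * C) ^ 2 := by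
      have e8 : (0 : ℝ) < x * (δ * h) := by positivity
      refine le_of_mul_le_mul_right ?_ e8
      calc P ^ 2 * (x * (δ * h)) ≤ C ^ 2 * 4 := h6
        _ ≤ C ^ 2 * (x ^ 3 * δ * h) := mul_le_mul_of_nonneg_left h7 (by positivity)
        _ = (x * C) ^ 2 * (x * (δ * h)) := by ring
    have h9 : P ≤ x * C := (sq_le_sq₀ hP0 (by positivity)).1 h8
    calc ((w : ℝ) - j) * P ≤ (h + 1) * (x * C) := mul_le_mul h2 h9 hP0 (by positivity)
      _ = x * ((h + 1) * C) := by ring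

private theorem bnd_zero {α : Type} [Fintype α] [DecidableEq α] {W : Finset α}
    {T : Finset α → Prop} {j : ℕ} (h : W.card ≤ j) : (bnd W T j).card = 0 := by
  classical
  rw [card_eq_zero, bnd, filter_eq_empty_iff]
  rintro ⟨a, u⟩ hp ⟨h1, -, -⟩
  rw [mem_product, mem_powersetCard] at hp
  obtain ⟨⟨h2, h3⟩, h4⟩ := hp
  have h5 : a = W := eq_of_subset_of_card_le h2 (by rw [h3]; exact h)
  rw [h5] at h1
  exact h1 h4

theorem static (x δ : ℝ) (hx : 0 < x) (hδ : 0 < δ) :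
    ∃ h0 : ℕ, ∀ (α : Type) [Fintype α] [DecidableEq α] (h : ℕ), h0 ≤ h → ∀ (V W : Finset α) (T : Finset α → Prop),
      (∀ a a', a ⊆ a' → T a' → T a) → W ⊆ V → V.card = 2 * h + 1 → δ * h ≤ ((V \ W).card : ℝ) →
      ((pairs V W T h).card : ℝ) ≤ x * ((h + 1) * ((2 * h + 1).choose h : ℝ)) := by
  refine ⟨⌈4 / (x ^ 3 * δ)⌉₊, ?_⟩
  intro α _ _ h hh V W T hT hW hV hb
  have hh' : 4 / (x ^ 3 * δ) ≤ (h : ℝ) := Nat.ceil_le.1 hh
  have hwb : W.card + (V \ W).card = 2 * h + 1 := by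
    have := card_sdiff_add_card_eq_card hW
    omega
  set w := W.card with hw
  set b := (V \ W).card with hbd
  set K : ℝ := x * ((h + 1) * ((2 * h + 1).choose h : ℝ)) with hK
  have hK0 : 0 ≤ K := by positivity
  have hg : ∀ j ∈ range (h + 1), w ≤ j → (bnd W T j).card * (b.choose (h - j)) = 0 := by
    intro j _ hj
    rw [bnd_zero hj, zero_mul]
  have hterm : ∀ j, j < w → 0 ≤ ((bnd W T j).card : ℝ) / (((w : ℝ) - j) * (w.choose j : ℝ)) := by
    intro j hj
    have : (j : ℝ) ≤ w := by exact_mod_cast hj.le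
    exact div_nonneg (by positivity) (mul_nonneg (by linarith) (by positivity))
  rw [pairs_card V W hW T h, Nat.cast_sum]
  calc ∑ j ∈ range (h + 1), (((bnd W T j).card * (b.choose (h - j)) : ℕ) : ℝ)
      = ∑ j ∈ (range (h + 1)).filter (· < w), (((bnd W T j).card * (b.choose (h - j)) : ℕ) : ℝ) := by
        rw [sum_filter]
        refine sum_congr rfl fun j hj => ?_
        split_ifs with h1
        · rfl
        · rw [hg j hj (not_lt.1 h1), Nat.cast_zero]
    _ ≤ ∑ j ∈ (range (h + 1)).filter (· < w),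
          K * (((bnd W T j).card : ℝ) / (((w : ℝ) - j) * (w.choose j : ℝ))) := by
        refine sum_le_sum fun j hj => ?_
        rw [mem_filter, mem_range] at hj
        have h1 := key hx hδ hh' hwb hb (by omega : j ≤ h) hj.2
        have h2 : (0 : ℝ) < ((w : ℝ) - j) * (w.choose j : ℝ) := by
          have h3 : (j : ℝ) < w := by exact_mod_cast hj.2
          have h4 : 0 < w.choose j := Nat.choose_pos hj.2.le
          have h5 : (0 : ℝ) < (w.choose j : ℝ) := by exact_mod_cast h4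
          exact mul_pos (by linarith) h5
        rw [← mul_div_assoc, le_div_iff₀ h2]
        push_cast
        calc ((bnd W T j).card : ℝ) * (b.choose (h - j) : ℝ) * (((w : ℝ) - j) * (w.choose j : ℝ))
            = ((bnd W T j).card : ℝ) * (((w : ℝ) - j) * (w.choose j : ℝ) * (b.choose (h - j) : ℝ)) := by
              ring
          _ ≤ ((bnd W T j).card : ℝ) * K := mul_le_mul_of_nonneg_left h1 (by positivity)
          _ = K * ((bnd W T j).card : ℝ) := by ring
    _ ≤ ∑ j ∈ range w, K * (((bnd W T j).card : ℝ) / (((w : ℝ) - j) * (w.choose j : ℝ))) := by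
        refine sum_le_sum_of_subset_of_nonneg ?_ ?_
        · intro j hj
          rw [mem_filter] at hj
          exact mem_range.2 hj.2
        · intro j hj _
          exact mul_nonneg hK0 (hterm j (mem_range.1 hj))
    _ = K * ∑ j ∈ range w, ((bnd W T j).card : ℝ) / (((w : ℝ) - j) * (w.choose j : ℝ)) := by
        rw [mul_sum]
    _ ≤ K * 1 := mul_le_mul_of_nonneg_left (boundary_sum W T hT) hK0
    _ = K := mul_one K

end Pool.Agent.Lib.MP_8fffab_lc_RR
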